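import Pool.Agent.N235.TA.Stm

/-!
# Project TA, part FIX: fixed points of maps which are affine along a flag
-/

set_option autoImplicit false

open Module

namespace Pool.Agent.N235.TA

universe u v

section
variable {G : Type u} [Group G] {V : Type v} [AddCommGroup V] [Module ℝ V]
  [FiniteDimensional ℝ V] [MulAction G V]

theorem fix_aux (T : TriAct G V) (g : G) : ∀ i : ℕ, (∀ w ∈ T.F i, T.L g w = w → w = 0) →
    ∀ v : V, g • v - v ∈ T.F i → ∃ w ∈ T.F i, g • (v + w) = v + w := by
  intro i
  induction i with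
  | zero =>
    intro _ v hv
    rw [T.zero, Submodule.mem_bot] at hv
    exact ⟨0, Submodule.zero_mem _, by rw [add_zero]; exact sub_eq_zero.mp hv⟩
  | succ i ih =>
    intro hinj v hv
    have hle : T.F i ≤ T.F (i + 1) := T.mono (Nat.le_succ i)
    -- the restriction of `L g - 1`
    let R : T.F (i + 1) →ₗ[ℝ] T.F (i + 1) :=
      (T.L g).restrict (T.map g (i + 1)) - LinearMap.id
    have hRval : ∀ w : T.F (i + 1), ((R w : T.F (i + 1)) : V) = T.L g w - w := fun w => rfl
    have hR : Function.Injective R := by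
      rw [← LinearMap.ker_eq_bot, LinearMap.ker_eq_bot']
      intro w hw
      have h1 : T.L g w - w = (0 : V) := by rw [← hRval, hw]; rfl
      exact Subtype.ext (hinj w w.2 (sub_eq_zero.mp h1))
    obtain ⟨w0, hw0⟩ := LinearMap.injective_iff_surjective.mp hR (-⟨g • v - v, hv⟩)
    have h0 : T.L g w0 - w0 = -(g • v - v) := by rw [← hRval, hw0]; rfl
    have h1 := T.tri g i v w0 w0.2
    have h2 : g • (v + (w0 : V)) - (v + w0) ∈ T.F i := by
      have h3 : g • (v + (w0 : V)) - (v + w0) = g • (v + (w0 : V)) - g • v - T.L g w0 := by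
        have : T.L g w0 = -(g • v - v) + w0 := by rw [← h0]; abel
        rw [this]; abel
      rw [h3]; exact h1
    obtain ⟨w1, hw1, hw1'⟩ := ih (fun w hw => hinj w (hle hw)) _ h2
    exact ⟨w0 + w1, Submodule.add_mem _ w0.2 (hle hw1), by rw [← add_assoc]; exact hw1'⟩

end

/-- **Part FIX.** -/
theorem fix : Fix.{u, v} := by
  intro G _ V _ _ _ _ T g
  constructor
  · intro h
    obtain ⟨w, _, hw⟩ := fix_aux T g T.r (fun w _ hw => h w hw) 0
      (by rw [T.top]; exact Submodule.mem_top)
    exact ⟨_, hw⟩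
  · rintro y hy ⟨w, hw, hw0⟩
    have hex : ∃ i, ¬ (∀ w ∈ T.F i, T.L g w = w → w = 0) :=
      ⟨T.r, fun h => hw0 (h w (by rw [T.top]; exact Submodule.mem_top) hw)⟩
    classical
    obtain ⟨i, hi, hmin⟩ : ∃ i, ¬ (∀ w ∈ T.F i, T.L g w = w → w = 0) ∧
        ∀ j < i, (∀ w ∈ T.F j, T.L g w = w → w = 0) :=
      ⟨Nat.find hex, Nat.find_spec hex, fun j hj => not_not.mp (Nat.find_min hex hj)⟩
    cases i with
    | zero =>
      exfalso
      apply hi
      intro w hw _
      rw [T.zero, Submodule.mem_bot] at hw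
      exact hw
    | succ i =>
      have hinj := hmin i (Nat.lt_succ_self i)
      push Not at hi
      obtain ⟨w, hwF, hw, hw0⟩ := hi
      have h1 := T.tri g i y w hwF
      rw [hy, hw] at h1
      have h2 : g • (y + w) - (y + w) ∈ T.F i := by
        rw [← sub_sub]; exact h1
      obtain ⟨w', hw'F, hw'⟩ := fix_aux T g i hinj _ h2
      refine ⟨_, hw', ?_⟩
      intro h
      apply hw0
      have h3 : w = -w' := by
        rw [add_assoc] at h
        exact eq_neg_of_add_eq_zero_left (add_eq_left.mp h)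
      exact hinj w (by rw [h3]; exact Submodule.neg_mem _ hw'F) hw

end Pool.Agent.N235.TA
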