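import Pool.Agent.N235.TA.Stm

/-!
# A form of Kolchin's theorem
-/

set_option autoImplicit false

open Module Polynomial

namespace Pool.Agent.N235.TA

universe u v

/-- An operator is nilpotent if the traces of its positive powers vanish. -/
theorem nil_of_trace {W : Type v} [AddCommGroup W] [Module ℝ W] [FiniteDimensional ℝ W]
    (b : Module.End ℝ W) (h : ∀ k : ℕ, LinearMap.trace ℝ W (b ^ (k + 1)) = 0) : IsNilpotent b := by
  have hint : IsIntegral ℝ b := Algebra.IsIntegral.isIntegral b
  have hμ : minpoly ℝ b ≠ 0 := minpoly.ne_zero hint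
  obtain ⟨q, hq, hnd⟩ := Polynomial.exists_eq_pow_rootMultiplicity_mul_and_not_dvd (minpoly ℝ b) hμ 0
  set s := (minpoly ℝ b).rootMultiplicity 0
  rw [map_zero, sub_zero] at hq hnd
  have hcop : IsCoprime (X ^ (s + 1) : ℝ[X]) q :=
    IsCoprime.pow_left ((Polynomial.irreducible_X.coprime_iff_not_dvd).2 hnd)
  obtain ⟨u, v, huv⟩ := hcop
  have hμ0 : aeval b (minpoly ℝ b) = 0 := minpoly.aeval ℝ b
  let e : Module.End ℝ W := aeval b (u * X ^ (s + 1))
  have he : IsIdempotentElem e := by
    have h1 : e - e * e = 0 := by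
      change aeval b (u * X ^ (s + 1)) - aeval b (u * X ^ (s + 1)) * aeval b (u * X ^ (s + 1)) = 0
      rw [← map_mul, ← map_sub]
      have h2 : u * X ^ (s + 1) - u * X ^ (s + 1) * (u * X ^ (s + 1)) =
          (u * v * X) * minpoly ℝ b := by
        rw [hq]
        have h3 : u * X ^ (s + 1) = 1 - v * q := by rw [← huv]; ring
        calc u * X ^ (s + 1) - u * X ^ (s + 1) * (u * X ^ (s + 1))
            = u * X ^ (s + 1) * (1 - u * X ^ (s + 1)) := by ring
          _ = u * X ^ (s + 1) * (v * q) := by rw [h3]; ring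
          _ = (u * v * X) * (X ^ s * q) := by ring
      rw [h2, map_mul, hμ0, mul_zero]
    exact (sub_eq_zero.1 h1).symm
  have htr : LinearMap.trace ℝ W e = 0 := by
    have h1 : ∀ r : ℝ[X], LinearMap.trace ℝ W (aeval b (r * X)) = 0 := by
      intro r
      induction r using Polynomial.induction_on' with
      | add p q hp hq => rw [add_mul, map_add, map_add, hp, hq, add_zero]
      | monomial n a =>
        rw [← C_mul_X_pow_eq_monomial, mul_assoc, ← pow_succ, map_mul, aeval_C, map_pow, aeval_X,
          ← Algebra.smul_def, map_smul, h, smul_zero]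
    have h2 := h1 (u * X ^ s)
    rw [mul_assoc, ← pow_succ] at h2
    exact h2
  have he0 : e = 0 := LinearMap.IsIdempotentElem.eq_zero_of_trace_eq_zero he htr
  refine ⟨s, ?_⟩
  have h4 : b ^ s = aeval b (X ^ s * (u * X ^ (s + 1)) + v * minpoly ℝ b) := by
    have h5 : (X ^ s * (u * X ^ (s + 1)) + v * minpoly ℝ b : ℝ[X]) = X ^ s := by
      rw [hq]
      calc (X ^ s * (u * X ^ (s + 1)) + v * (X ^ s * q) : ℝ[X])
          = X ^ s * (u * X ^ (s + 1) + v * q) := by ring
        _ = X ^ s := by rw [huv, mul_one]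
    rw [h5, map_pow, aeval_X]
  rw [h4, map_add, map_mul (aeval b) (X ^ s) _, map_mul (aeval b) v _, hμ0, mul_zero, add_zero]
  change _ * e = 0
  rw [he0, mul_zero]

attribute [local instance 100] LieRing.ofAssociativeRing

/-- **Part KOL.** -/
theorem kol : Kol.{u, v} := by
  intro Γ _ W _ _ _ L htr
  let I : Submodule ℝ (Module.End ℝ W) := Submodule.span ℝ (Set.range fun γ => L γ - 1)
  have hmul : ∀ a ∈ I, ∀ b ∈ I, a * b ∈ I := by
    intro a ha b hb
    induction ha using Submodule.span_induction with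
    | mem a ha =>
      obtain ⟨g, rfl⟩ := ha
      induction hb using Submodule.span_induction with
      | mem b hb =>
        obtain ⟨h, rfl⟩ := hb
        have h1 : (L g - 1) * (L h - 1) = (L (g * h) - 1) - (L g - 1) - (L h - 1) := by
          rw [map_mul, sub_mul, mul_sub, mul_one, one_mul]
          abel
        change (L g - 1) * (L h - 1) ∈ I
        rw [h1]
        exact I.sub_mem (I.sub_mem (Submodule.subset_span ⟨_, rfl⟩)
          (Submodule.subset_span ⟨_, rfl⟩)) (Submodule.subset_span ⟨_, rfl⟩)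
      | zero => rw [mul_zero]; exact I.zero_mem
      | add x y _ _ hx hy => rw [mul_add]; exact I.add_mem hx hy
      | smul c x _ hx => rw [mul_smul_comm]; exact I.smul_mem c hx
    | zero => rw [zero_mul]; exact I.zero_mem
    | add x y _ _ hx hy => rw [add_mul]; exact I.add_mem hx hy
    | smul c x _ hx => rw [smul_mul_assoc]; exact I.smul_mem c hx
  have htrI : ∀ a ∈ I, LinearMap.trace ℝ W a = 0 := by
    intro a ha
    induction ha using Submodule.span_induction with
    | mem a ha =>
      obtain ⟨g, rfl⟩ := ha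
      change LinearMap.trace ℝ W (L g - 1) = 0
      rw [map_sub, htr, LinearMap.trace_one, sub_self]
    | zero => rw [map_zero]
    | add x y _ _ hx hy => rw [map_add, hx, hy, add_zero]
    | smul c x _ hx => rw [map_smul, hx, smul_zero]
  have hpow : ∀ a ∈ I, ∀ k : ℕ, a ^ (k + 1) ∈ I := by
    intro a ha k
    induction k with
    | zero => rw [zero_add, pow_one]; exact ha
    | succ k ih => rw [pow_succ]; exact hmul _ ih _ ha
  have hnil : ∀ a ∈ I, IsNilpotent a := fun a ha => nil_of_trace a fun k => htrI _ (hpow a ha k)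
  let LI : LieSubalgebra ℝ (Module.End ℝ W) :=
    { I with
      lie_mem' := fun {a b} ha hb => by
        rw [Ring.lie_def]
        exact I.sub_mem (hmul a ha b hb) (hmul b hb a ha) }
  have hN : LieModule.IsNilpotent LI W := by
    rw [LieModule.isNilpotent_iff_forall' (R := ℝ)]
    intro x
    have h1 : LieModule.toEnd ℝ LI W x = (x : Module.End ℝ W) := by
      ext w
      rfl
    rw [h1]
    exact hnil x.1 x.2
  obtain ⟨k, hk⟩ := (LieModule.isNilpotent_iff ℝ LI W).1 hN
  refine ⟨fun j => (LieModule.lowerCentralSeries ℝ LI W (k - j)).toSubmodule, k, ?_, ?_, ?_, ?_⟩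
  · change (LieModule.lowerCentralSeries ℝ LI W (k - 0)).toSubmodule = ⊥
    rw [Nat.sub_zero, hk]
    rfl
  · change (LieModule.lowerCentralSeries ℝ LI W (k - k)).toSubmodule = ⊤
    rw [Nat.sub_self]
    rfl
  · intro i j hij
    exact LieModule.antitone_lowerCentralSeries ℝ LI W (Nat.sub_le_sub_left hij k)
  · intro γ j w hw
    change L γ w - w ∈ (LieModule.lowerCentralSeries ℝ LI W (k - j)).toSubmodule
    rcases Nat.lt_or_ge j k with hjk | hjk
    · have h2 : k - j = (k - (j + 1)) + 1 := by omega
      rw [h2, LieModule.lowerCentralSeries_succ]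
      have h3 : (⟨L γ - 1, Submodule.subset_span ⟨γ, rfl⟩⟩ : LI) ∈ (⊤ : LieIdeal ℝ LI) :=
        LieSubmodule.mem_top _
      exact LieSubmodule.lie_mem_lie h3 hw
    · rw [Nat.sub_eq_zero_of_le hjk]
      trivial

end Pool.Agent.N235.TA
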