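import Pool.Agent.N235.TA.Kol

/-!
# Nilpotency of a group of triangular polynomial maps
-/

set_option autoImplicit false

open Module

namespace Pool.Agent.N235.TA

universe u v

/-- the difference operator on sequences -/
def dif : Module.End ℝ (ℕ → ℝ) where
  toFun φ n := φ (n + 1) - φ n
  map_add' φ ψ := by
    funext n
    simp only [Pi.add_apply]
    ring
  map_smul' c φ := by
    funext n
    simp only [Pi.smul_apply, smul_eq_mul, RingHom.id_apply]
    ring

theorem dif_apply (φ : ℕ → ℝ) (n : ℕ) : dif φ n = φ (n + 1) - φ n := rfl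

theorem dif_succ (k : ℕ) (φ : ℕ → ℝ) : (dif ^ (k + 1)) φ = (dif ^ k) (dif φ) := by
  rw [pow_succ, Module.End.mul_apply]

/-- polynomial sequences -/
def PS (φ : ℕ → ℝ) : Prop := ∃ k : ℕ, (dif ^ k) φ = 0

theorem dif_mono {φ : ℕ → ℝ} {k l : ℕ} (h : (dif ^ k) φ = 0) (hkl : k ≤ l) :
    (dif ^ l) φ = 0 := by
  obtain ⟨r, rfl⟩ := Nat.exists_eq_add_of_le' hkl
  rw [pow_add, Module.End.mul_apply, h, map_zero]

theorem PS.zero : PS 0 := ⟨0, map_zero _⟩

theorem PS.add {φ ψ : ℕ → ℝ} (h1 : PS φ) (h2 : PS ψ) : PS (φ + ψ) := by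
  obtain ⟨k, hk⟩ := h1
  obtain ⟨l, hl⟩ := h2
  exact ⟨k + l, by rw [map_add, dif_mono hk (Nat.le_add_right k l),
    dif_mono hl (Nat.le_add_left l k), add_zero]⟩

theorem PS.smul {φ : ℕ → ℝ} (c : ℝ) (h1 : PS φ) : PS (c • φ) := by
  obtain ⟨k, hk⟩ := h1
  exact ⟨k, by rw [map_smul, hk, smul_zero]⟩

theorem PS.of_dif {φ : ℕ → ℝ} (h : PS (dif φ)) : PS φ := by
  obtain ⟨k, hk⟩ := h
  exact ⟨k + 1, by rw [dif_succ, hk]⟩

theorem PS.one : PS 1 := PS.of_dif ⟨0, by
  funext n
  change (1 : ℝ) - 1 = 0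
  norm_num⟩

theorem dif_mul (s : ℕ) : ∀ (k l : ℕ) (φ ψ : ℕ → ℝ), k + l ≤ s → (dif ^ k) φ = 0 →
    (dif ^ l) ψ = 0 → (dif ^ s) (φ * ψ) = 0 := by
  induction s with
  | zero =>
    intro k l φ ψ hs hk hl
    have h1 : k = 0 := by omega
    subst h1
    have h2 : φ = 0 := hk
    rw [h2, zero_mul, map_zero]
  | succ s ih =>
    intro k l φ ψ hs hk hl
    rcases k with _ | k
    · have h2 : φ = 0 := hk
      rw [h2, zero_mul, map_zero]
    rcases l with _ | l
    · have h2 : ψ = 0 := hl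
      rw [h2, mul_zero, map_zero]
    have h3 : dif (φ * ψ) = dif φ * ψ + φ * dif ψ + dif φ * dif ψ := by
      funext n
      simp only [dif_apply, Pi.mul_apply, Pi.add_apply]
      ring
    have hk' := hk
    have hl' := hl
    rw [dif_succ] at hk' hl'
    rw [dif_succ, h3, map_add, map_add, ih k (l + 1) _ _ (by omega) hk' hl,
      ih (k + 1) l _ _ (by omega) hk hl', ih k l _ _ (by omega) hk' hl', add_zero, add_zero]

theorem PS.mul {φ ψ : ℕ → ℝ} (h1 : PS φ) (h2 : PS ψ) : PS (φ * ψ) := by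
  obtain ⟨k, hk⟩ := h1
  obtain ⟨l, hl⟩ := h2
  exact ⟨k + l, dif_mul _ k l φ ψ le_rfl hk hl⟩

theorem PS.prod {k : ℕ} (F : Fin k → ℕ → ℝ) (h : ∀ i, PS (F i)) : PS (fun n => ∏ i, F i n) := by
  have h1 : PS (∏ i, F i) := Finset.prod_induction F PS (fun _ _ => PS.mul) PS.one fun i _ => h i
  have h2 : (fun n => ∏ i, F i n) = ∏ i, F i := by
    funext n
    rw [Finset.prod_apply]
  rw [h2]
  exact h1

/-- a polynomial function of a polynomial sequence of vectors -/
theorem PS.poly {V : Type v} [AddCommGroup V] [Module ℝ V] {d : ℕ} {f : V → ℝ}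
    (hf : f ∈ polyFun V d) (y : ℕ → V) (hy : ∀ ℓ : Dual ℝ V, PS fun n => ℓ (y n)) :
    PS fun n => f (y n) := by
  unfold polyFun at hf
  induction hf using Submodule.span_induction with
  | mem f hf =>
    obtain ⟨k, _, ℓ, rfl⟩ := hf
    exact PS.prod _ fun i => hy (ℓ i)
  | zero => exact PS.zero
  | add a b _ _ ha hb => exact ha.add hb
  | smul c a _ ha => exact ha.smul c

/-- the orbits of a triangular polynomial map are polynomial sequences -/
theorem orbit {V : Type v} [AddCommGroup V] [Module ℝ V] (g : V → V) (U : ℕ → Submodule ℝ V)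
    (m d : ℕ) (h1 : U m = ⊤) (h2 : ∀ j v, ∀ w ∈ U (j + 1), g (v + w) - g v - w ∈ U j)
    (h3 : ∀ ℓ : Dual ℝ V, (fun v : V => ℓ (g v)) ∈ polyFun V d) (x : ℕ → V)
    (hx : ∀ n, x (n + 1) = g (x n)) : ∀ i : ℕ, i ≤ m → ∀ ℓ : Dual ℝ V,
      (∀ w ∈ U (m - i), ℓ w = 0) → PS fun n => ℓ (x n) := by
  intro i
  induction i with
  | zero =>
    intro _ ℓ hℓ
    rw [Nat.sub_zero, h1] at hℓ
    have h4 : (fun n => ℓ (x n)) = 0 := funext fun n => hℓ _ trivial
    rw [h4]
    exact PS.zero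
  | succ i ih =>
    intro hi ℓ hℓ
    obtain ⟨j, hj⟩ : ∃ j, j = m - (i + 1) := ⟨_, rfl⟩
    have hj1 : m - i = j + 1 := by omega
    rw [← hj] at hℓ
    have ih' := ih (by omega)
    rw [hj1] at ih'
    obtain ⟨C, hC⟩ := (U (j + 1)).exists_isCompl
    let π : V →ₗ[ℝ] V := C.subtype.comp (C.projectionOnto (U (j + 1)) hC.symm)
    have hπ0 : ∀ w ∈ U (j + 1), π w = 0 := fun w hw =>
      congrArg Subtype.val (Submodule.projectionOnto_apply_right hC.symm ⟨w, hw⟩)
    have hπC : ∀ w ∈ C, π w = w := fun w hw =>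
      congrArg Subtype.val (Submodule.projectionOnto_apply_left hC.symm ⟨w, hw⟩)
    have hπ1 : ∀ v, v - π v ∈ U (j + 1) := by
      intro v
      obtain ⟨a, ha, b, hb, rfl⟩ := Submodule.mem_sup.1
        (show v ∈ U (j + 1) ⊔ C by rw [hC.sup_eq_top]; trivial)
      rw [map_add, hπ0 a ha, hπC b hb, zero_add, add_sub_cancel_right]
      exact ha
    have hlin : ∀ ℓ' : Dual ℝ V, PS fun n => ℓ' (π (x n)) := fun ℓ' =>
      ih' (ℓ'.comp π) fun w hw => by rw [LinearMap.comp_apply, hπ0 w hw, map_zero]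
    refine PS.of_dif ?_
    have h5 : dif (fun n => ℓ (x n)) =
        (fun n => ℓ (g (π (x n)))) + (-1 : ℝ) • fun n => ℓ (π (x n)) := by
      funext n
      rw [dif_apply, hx]
      have h6 := h2 j (π (x n)) _ (hπ1 (x n))
      have h7 := hℓ _ h6
      rw [add_sub_cancel, map_sub, map_sub, map_sub] at h7
      simp only [Pi.add_apply, Pi.smul_apply, smul_eq_mul]
      linarith
    rw [h5]
    exact (PS.poly (h3 ℓ) (fun n => π (x n)) hlin).add ((hlin ℓ).smul _)

theorem polyFun_finite (V : Type v) [AddCommGroup V] [Module ℝ V] [FiniteDimensional ℝ V] (d : ℕ) :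
    FiniteDimensional ℝ (polyFun V d) := by
  let e : Dual ℝ V →ₗ[ℝ] (V → ℝ) :=
    { toFun := fun ℓ v => ℓ v
      map_add' := fun _ _ => rfl
      map_smul' := fun _ _ => rfl }
  let N : Submodule ℝ (V → ℝ) := 1 ⊔ LinearMap.range e
  have hN : N.FG := by
    refine Submodule.FG.sup ?_ ?_
    · rw [Submodule.one_eq_span]
      exact Submodule.fg_span (Set.finite_singleton _)
    · exact Module.Finite.iff_fg.1 inferInstance
  have h1 : polyFun V d ≤ N ^ d := by
    unfold polyFun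
    rw [Submodule.span_le]
    rintro _ ⟨k, hk, ℓ, rfl⟩
    have h2 : (fun v => ∏ i, ℓ i v) ∈ N ^ k := by
      have h3 : (fun v => ∏ i, ℓ i v) = ∏ i, e (ℓ i) := by
        funext v
        rw [Finset.prod_apply]
        rfl
      rw [h3]
      clear hk h3
      induction k with
      | zero =>
        rw [Fin.prod_univ_zero, pow_zero]
        exact Submodule.one_le.1 le_rfl
      | succ k ih =>
        rw [Fin.prod_univ_castSucc, pow_succ]
        exact Submodule.mul_mem_mul (ih _) (Submodule.mem_sup_right ⟨_, rfl⟩)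
    have h4 : N ^ k ≤ N ^ d := by
      obtain ⟨r, rfl⟩ := Nat.exists_eq_add_of_le hk
      rw [pow_add]
      have h5 : (1 : Submodule ℝ (V → ℝ)) ≤ N ^ r := one_le_pow_of_one_le' le_sup_left r
      calc N ^ k = N ^ k * 1 := (mul_one _).symm
        _ ≤ N ^ k * N ^ r := mul_le_mul_right h5 _
    exact h4 h2
  have : FiniteDimensional ℝ (N ^ d : Submodule ℝ (V → ℝ)) := Module.Finite.iff_fg.2 (hN.pow d)
  exact Submodule.finiteDimensional_of_le h1

/-- an operator on a finite-dimensional space of functions is nilpotent if its powers tend to `0`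
pointwise in the discrete sense -/
theorem nil_of_pointwise {V : Type v} (P : Submodule ℝ (V → ℝ)) [FiniteDimensional ℝ P]
    (N : Module.End ℝ P) (h : ∀ f v, ∃ k, ∀ j, k ≤ j → ((N ^ j) f).1 v = 0) : IsNilpotent N := by
  rw [Module.End.isNilpotent_iff_of_finite]
  intro f
  let R : ℕ →o (Submodule ℝ P)ᵒᵈ :=
    { toFun := fun k => OrderDual.toDual (Submodule.span ℝ {h | ∃ j, k ≤ j ∧ h = (N ^ j) f})
      monotone' := fun a b hab => by
        refine Submodule.span_mono ?_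
        rintro _ ⟨j, hj, rfl⟩
        exact ⟨j, hab.trans hj, rfl⟩ }
  obtain ⟨n, hn⟩ := IsArtinian.monotone_stabilizes R
  refine ⟨n, Subtype.ext (funext fun v => ?_)⟩
  obtain ⟨k, hk⟩ := h f v
  have h1 : (N ^ n) f ∈ (Submodule.span ℝ {h | ∃ j, n ≤ j ∧ h = (N ^ j) f} : Submodule ℝ P) :=
    Submodule.subset_span ⟨n, le_rfl, rfl⟩
  have h2 : (Submodule.span ℝ {h | ∃ j, n ≤ j ∧ h = (N ^ j) f} : Submodule ℝ P) =
      Submodule.span ℝ {h | ∃ j, max n k ≤ j ∧ h = (N ^ j) f} := hn (max n k) (le_max_left _ _)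
  rw [h2] at h1
  have h3 : ∀ h ∈ (Submodule.span ℝ {h | ∃ j, max n k ≤ j ∧ h = (N ^ j) f} : Submodule ℝ P),
      h.1 v = 0 := by
    intro h hh
    induction hh using Submodule.span_induction with
    | mem h hh =>
      obtain ⟨j, hj, rfl⟩ := hh
      exact hk j ((le_max_right _ _).trans hj)
    | zero => rfl
    | add a b _ _ ha hb =>
      change a.1 v + b.1 v = 0
      rw [ha, hb, add_zero]
    | smul c a _ ha =>
      change c * a.1 v = 0
      rw [ha, mul_zero]
  exact h3 _ h1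

/-- a group acting faithfully by unipotent triangular operators is nilpotent -/
theorem nilp_of_flag {Γ : Type u} [Group Γ] {P : Type v} [AddCommGroup P] [Module ℝ P]
    (L : Γ →* (P →ₗ[ℝ] P)) (hf : ∀ γ, (∀ w, L γ w = w) → γ = 1) (U : ℕ → Submodule ℝ P) (m : ℕ)
    (h0 : U 0 = ⊥) (hm : U m = ⊤) (hmono : Monotone U)
    (hU : ∀ γ j, ∀ w ∈ U (j + 1), L γ w - w ∈ U j) : Group.IsNilpotent Γ := by
  have hpres : ∀ γ j, ∀ w ∈ U j, L γ w ∈ U j := by
    intro γ j w hw
    rcases j with _ | j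
    · rw [h0, Submodule.mem_bot] at hw ⊢
      rw [hw, map_zero]
    · have h1 := hmono (Nat.le_succ j) (hU γ j w hw)
      have h2 := (U (j + 1)).add_mem h1 hw
      rwa [sub_add_cancel] at h2
  have hmul : ∀ a b w, L (a * b) w = L a (L b w) := fun a b w => by
    rw [map_mul, Module.End.mul_apply]
  have hone : ∀ w, L 1 w = w := fun w => by rw [map_one, Module.End.one_apply]
  let H : ℕ → Subgroup Γ := fun n =>
    { carrier := {γ | ∀ j, ∀ w ∈ U (j + n + 1), L γ w - w ∈ U j}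
      one_mem' := fun j w _ => by
        rw [hone, sub_self]
        exact (U j).zero_mem
      mul_mem' := fun {a b} ha hb j w hw => by
        have h1 : L (a * b) w - w = L a (L b w - w) + (L a w - w) := by
          rw [hmul, map_sub]
          abel
        rw [h1]
        exact (U j).add_mem (hpres a j _ (hb j w hw)) (ha j w hw)
      inv_mem' := fun {a} ha j w hw => by
        have h1 : L a⁻¹ w - w = -(L a⁻¹ (L a w - w)) := by
          rw [map_sub, ← hmul, inv_mul_cancel, hone]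
          abel
        rw [h1]
        exact (U j).neg_mem (hpres _ j _ (ha j w hw)) }
  rw [Subgroup.nilpotent_iff_finite_descending_central_series]
  refine ⟨m, H, ⟨?_, ?_⟩, ?_⟩
  · rw [eq_top_iff]
    intro γ _ j w hw
    exact hU γ j w hw
  · intro x n hx g j w hw
    have hw' : L (x⁻¹ * g⁻¹) w ∈ U (j + (n + 1) + 1) := hpres _ _ _ hw
    have h1 : L (x * g * x⁻¹ * g⁻¹) w - w =
        (L x (L g (L (x⁻¹ * g⁻¹) w) - L (x⁻¹ * g⁻¹) w) - (L g (L (x⁻¹ * g⁻¹) w) -
          L (x⁻¹ * g⁻¹) w)) -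
        (L g (L x (L (x⁻¹ * g⁻¹) w) - L (x⁻¹ * g⁻¹) w) - (L x (L (x⁻¹ * g⁻¹) w) -
          L (x⁻¹ * g⁻¹) w)) := by
      have e1 : L (x * g * x⁻¹ * g⁻¹) w = L x (L g (L (x⁻¹ * g⁻¹) w)) := by
        rw [← hmul, ← hmul]
        congr 2
        group
      have e2 : w = L g (L x (L (x⁻¹ * g⁻¹) w)) := by
        rw [← hmul, ← hmul]
        have e3 : g * x * (x⁻¹ * g⁻¹) = 1 := by group
        rw [e3, hone]
      rw [map_sub, map_sub, ← e1, ← e2]
      abel
    rw [commutatorElement_def, h1]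
    refine (U j).sub_mem ?_ ?_
    · exact hx j _ (hU g (j + n + 1) _ hw')
    · refine hU g j _ (hx (j + 1) _ ?_)
      have e4 : j + 1 + n + 1 = j + (n + 1) + 1 := by ring
      rw [e4]
      exact hw'
  · rw [eq_bot_iff]
    intro γ hγ
    rw [Subgroup.mem_bot]
    refine hf γ fun w => ?_
    have h1 : w ∈ U (0 + m + 1) := hmono (by omega : m ≤ 0 + m + 1) (by rw [hm]; trivial)
    have h2 := hγ 0 w h1
    rw [h0, Submodule.mem_bot, sub_eq_zero] at h2
    exact h2

theorem trace_of_nil {P : Type v} [AddCommGroup P] [Module ℝ P] [FiniteDimensional ℝ P]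
    (a : Module.End ℝ P) (h : IsNilpotent (a - 1)) : LinearMap.trace ℝ P a = finrank ℝ P := by
  have h1 : LinearMap.trace ℝ P (a - 1) = 0 :=
    (LinearMap.isNilpotent_trace_of_isNilpotent h).eq_zero
  rw [map_sub, LinearMap.trace_one, sub_eq_zero] at h1
  exact h1

/-- **Part NIL.** -/
theorem nil : Nil.{u, v} := by
  intro Γ _ V _ _ _ _ _ U m d hU0 hUm hmono hU hpoly
  let P : Submodule ℝ (V → ℝ) :=
    Submodule.span ℝ {f | ∃ (γ : Γ) (ℓ : Dual ℝ V), f = fun v => ℓ (γ • v)}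
  have hPle : P ≤ polyFun V d := by
    change Submodule.span ℝ _ ≤ _
    rw [Submodule.span_le]
    rintro _ ⟨γ, ℓ, rfl⟩
    exact hpoly γ ℓ
  have := polyFun_finite V d
  have : FiniteDimensional ℝ P := Submodule.finiteDimensional_of_le hPle
  have hT : ∀ γ : Γ, ∀ f ∈ P, (LinearMap.funLeft ℝ ℝ fun v : V => γ⁻¹ • v) f ∈ P := by
    intro γ f hf
    induction hf using Submodule.span_induction with
    | mem f hf =>
      obtain ⟨γ', ℓ, rfl⟩ := hf
      refine Submodule.subset_span ⟨γ' * γ⁻¹, ℓ, ?_⟩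
      funext v
      rw [mul_smul]
      rfl
    | zero => rw [map_zero]; exact P.zero_mem
    | add a b _ _ ha hb => rw [map_add]; exact P.add_mem ha hb
    | smul c a _ ha => rw [map_smul]; exact P.smul_mem c ha
  let L : Γ →* (P →ₗ[ℝ] P) :=
    { toFun := fun γ => (LinearMap.funLeft ℝ ℝ fun v : V => γ⁻¹ • v).restrict (hT γ)
      map_one' := by
        refine LinearMap.ext fun f => Subtype.ext (funext fun v => ?_)
        change f.1 ((1 : Γ)⁻¹ • v) = f.1 v
        rw [inv_one, one_smul]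
      map_mul' := fun a b => by
        refine LinearMap.ext fun f => Subtype.ext (funext fun v => ?_)
        change f.1 ((a * b)⁻¹ • v) = f.1 (b⁻¹ • a⁻¹ • v)
        rw [mul_inv_rev, mul_smul] }
  have hL : ∀ γ f v, (L γ f).1 v = f.1 (γ⁻¹ • v) := fun γ f v => rfl
  have hnil : ∀ γ, IsNilpotent (L γ - 1) := by
    intro γ
    refine nil_of_pointwise P _ fun f v => ?_
    obtain ⟨x, hx0, hx⟩ : ∃ x : ℕ → V, x 0 = v ∧ ∀ n, x (n + 1) = γ⁻¹ • x n :=
      ⟨fun n => (γ⁻¹) ^ n • v, by simp, fun n => by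
        change (γ⁻¹) ^ (n + 1) • v = γ⁻¹ • (γ⁻¹) ^ n • v
        rw [pow_succ', mul_smul]⟩
    have hlin : ∀ ℓ : Dual ℝ V, PS fun n => ℓ (x n) := fun ℓ =>
      orbit (fun v => γ⁻¹ • v) U m d hUm (fun j v w hw => hU γ⁻¹ j v w hw)
        (fun ℓ => hpoly γ⁻¹ ℓ) x hx m le_rfl ℓ (fun w hw => by
          rw [Nat.sub_self, hU0, Submodule.mem_bot] at hw
          rw [hw, map_zero])
    obtain ⟨k, hk⟩ := PS.poly (hPle f.2) x hlin
    refine ⟨k, fun j hj => ?_⟩
    have h1 : ∀ (j : ℕ) (f : P) (n : ℕ),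
        (((L γ - 1) ^ j) f).1 (x n) = ((dif ^ j) fun n => f.1 (x n)) n := by
      intro j
      induction j with
      | zero => intro f n; rfl
      | succ j ih =>
        intro f n
        have e5 : (fun r => ((L γ - 1) f).1 (x r)) = dif (fun r => f.1 (x r)) := by
          funext r
          rw [dif_apply, hx]
          rfl
        rw [pow_succ, Module.End.mul_apply, ih, dif_succ, e5]
    rw [← hx0, h1, dif_mono hk hj]
    rfl
  have htr : ∀ γ, LinearMap.trace ℝ P (L γ) = finrank ℝ P := fun γ => trace_of_nil _ (hnil γ)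
  obtain ⟨U', m', h0, hm', hmono', hU'⟩ := kol Γ P L htr
  refine nilp_of_flag L (fun γ hγ => ?_) U' m' h0 hm' hmono' hU'
  have h1 : ∀ (ℓ : Dual ℝ V) (v : V), ℓ (γ⁻¹ • v) = ℓ v := by
    intro ℓ v
    have h2 := hγ ⟨fun v => ℓ ((1 : Γ) • v), Submodule.subset_span ⟨1, ℓ, rfl⟩⟩
    have h3 := congrArg (fun f : P => f.1 v) h2
    simp only [hL, one_smul] at h3
    exact h3
  have h4 : γ⁻¹ = 1 := by
    refine FaithfulSMul.eq_of_smul_eq_smul (α := V) fun v => ?_
    rw [one_smul, ← sub_eq_zero]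
    refine (Module.forall_dual_apply_eq_zero_iff ℝ _).1 fun ℓ => ?_
    rw [map_sub, h1, sub_self]
  exact inv_eq_one.1 h4

end Pool.Agent.N235.TA

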