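import Pool.Agent.N235.TA.Stm

/-!
# Project TA: refinement of the flag (part REF)
-/

set_option autoImplicit false

open Module

namespace Pool.Agent.N235.TA

universe u v

namespace RefAux

variable (Γ : Type u) [Group Γ] {V : Type v} [AddCommGroup V] [Module ℝ V] [MulAction Γ V]

/-- `Γ` acts by `v + w ↦ γ v + w` modulo `A` for `w ∈ B`. -/
def Rel (A B : Submodule ℝ V) : Prop :=
  A ≤ B ∧ ∀ (γ : Γ) (v : V), ∀ w ∈ B, γ • (v + w) - γ • v - w ∈ A

theorem chain {A B : Submodule ℝ V} (h : Relation.ReflTransGen (Rel Γ) A B) :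
    ∃ (U : ℕ → Submodule ℝ V) (m : ℕ), U 0 = A ∧ (∀ j, m ≤ j → U j = B) ∧
      ∀ j < m, Rel Γ (U j) (U (j + 1)) := by
  induction h with
  | refl => exact ⟨fun _ => A, 0, rfl, fun _ _ => rfl, fun j hj => absurd hj (Nat.not_lt_zero j)⟩
  | @tail B C h1 h2 ih =>
    obtain ⟨U, m, h0, hm, hU⟩ := ih
    refine ⟨fun j => if j ≤ m then U j else C, m + 1, ?_, ?_, ?_⟩
    · simp [h0]
    · intro j hj
      have : ¬ j ≤ m := by omega
      simp [this]
    · intro j hj
      rcases Nat.lt_or_ge j m with h | h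
      · have e1 : j ≤ m := h.le
        have e2 : j + 1 ≤ m := h
        simp only [e1, e2, if_true]
        exact hU j h
      · have e1 : j = m := by omega
        subst e1
        simp only [le_refl, if_true, Nat.not_succ_le_self, if_false]
        rw [hm j le_rfl]
        exact h2

theorem step (T : TriAct Γ V) (U : ℕ → Submodule ℝ V) (hU : Monotone U)
    (h : ∀ γ j, ∀ w ∈ U (j + 1), T.L γ w - w ∈ U j) (i j : ℕ) :
    Rel Γ (T.F i ⊔ (U j ⊓ T.F (i + 1))) (T.F i ⊔ (U (j + 1) ⊓ T.F (i + 1))) := by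
  refine ⟨sup_le_sup le_rfl (inf_le_inf (hU (Nat.le_succ j)) le_rfl), ?_⟩
  intro γ v w hw
  have hFi : T.F i ≤ T.F (i + 1) := T.mono (Nat.le_succ i)
  obtain ⟨a, ha, b, hb, rfl⟩ := Submodule.mem_sup.1 hw
  obtain ⟨hb1, hb2⟩ := Submodule.mem_inf.1 hb
  have h1 : γ • (v + (a + b)) - γ • v - T.L γ (a + b) ∈ T.F i :=
    T.tri γ i v (a + b) (Submodule.add_mem _ (hFi ha) hb2)
  have h2 : T.L γ a - a ∈ T.F i := Submodule.sub_mem _ (T.map γ i a ha) ha
  have h3 : T.L γ b - b ∈ U j ⊓ T.F (i + 1) :=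
    Submodule.mem_inf.2 ⟨h γ j b hb1, Submodule.sub_mem _ (T.map γ (i + 1) b hb2) hb2⟩
  have e : γ • (v + (a + b)) - γ • v - (a + b) =
      ((γ • (v + (a + b)) - γ • v - T.L γ (a + b)) + (T.L γ a - a)) + (T.L γ b - b) := by
    rw [map_add]
    abel
  rw [e]
  exact Submodule.add_mem _ (Submodule.mem_sup_left (Submodule.add_mem _ h1 h2))
    (Submodule.mem_sup_right h3)

theorem inner (T : TriAct Γ V) (U : ℕ → Submodule ℝ V) (hU : Monotone U) (h0 : U 0 = ⊥)
    (h : ∀ γ j, ∀ w ∈ U (j + 1), T.L γ w - w ∈ U j) (i j : ℕ) :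
    Relation.ReflTransGen (Rel Γ) (T.F i) (T.F i ⊔ (U j ⊓ T.F (i + 1))) := by
  induction j with
  | zero =>
    rw [h0, bot_inf_eq, sup_bot_eq]
  | succ j ih => exact ih.tail (step Γ T U hU h i j)

theorem outer (T : TriAct Γ V) (U : ℕ → Submodule ℝ V) (m : ℕ) (hU : Monotone U) (h0 : U 0 = ⊥)
    (hm : U m = ⊤) (h : ∀ γ j, ∀ w ∈ U (j + 1), T.L γ w - w ∈ U j) (i : ℕ) :
    Relation.ReflTransGen (Rel Γ) (T.F 0) (T.F i) := by
  induction i with
  | zero => exact Relation.ReflTransGen.refl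
  | succ i ih =>
    have h1 := inner Γ T U hU h0 h i m
    rw [hm, top_inf_eq, sup_eq_right.2 (T.mono (Nat.le_succ i))] at h1
    exact ih.trans h1

end RefAux

/-- **Part REF.** -/
theorem ref : Ref.{u, v} := by
  intro Γ _ V _ _ _ _ T U m h0 hm hU h
  have h1 := RefAux.outer Γ T U m hU h0 hm h T.r
  rw [T.zero, T.top] at h1
  obtain ⟨U', m', h0', hm', hR⟩ := RefAux.chain Γ h1
  refine ⟨U', m', h0', hm' m' le_rfl, ?_, ?_⟩
  · refine monotone_nat_of_le_succ fun j => ?_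
    rcases Nat.lt_or_ge j m' with hj | hj
    · exact (hR j hj).1
    · rw [hm' j hj, hm' (j + 1) (by omega)]
  · intro γ j v w hw
    rcases Nat.lt_or_ge j m' with hj | hj
    · exact (hR j hj).2 γ v w hw
    · rw [hm' j hj]
      exact Submodule.mem_top

end Pool.Agent.N235.TA
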