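import Pool.Agent.N235.TA.Comp
import Pool.Agent.N235.TA.Kol
import Pool.Agent.N235.TA.Fix
import Pool.Agent.N235.TA.Ref
import Pool.Agent.N235.TA.Nil

set_option autoImplicit false

open Module

namespace Pool.Agent.N235.TA

universe u v w

variable {G : Type u} [Group G] {V : Type v} [AddCommGroup V] [Module ℝ V]
  [FiniteDimensional ℝ V] [MulAction G V]

/-- restriction of a triangular action to a group which maps to `G` -/
def TriAct.pull (T : TriAct G V) {Γ : Type w} [Group Γ] [MulAction Γ V] (ρ : Γ →* G)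
    (hρ : ∀ (γ : Γ) (v : V), γ • v = ρ γ • v) : TriAct Γ V where
  F := T.F
  r := T.r
  zero := T.zero
  top := T.top
  mono := T.mono
  L := T.L.comp ρ
  map γ i w hw := T.map (ρ γ) i w hw
  tri γ i v w hw := by
    rw [hρ, hρ]
    exact T.tri (ρ γ) i v w hw

/-- The algebraic part: a group `Γ` with a homomorphism `ρ` to `G`, faithful on `V`, an element `b`
whose positive powers have exactly one fixed point, and the traces of the `ρ γ * b ^ n` which have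
a fixed point belong to finite sets. -/
theorem alg_main (T : TriAct G V) (d : ℕ)
    (hpoly : ∀ (g : G) (ℓ : Dual ℝ V), (fun v : V => ℓ (g • v)) ∈ polyFun V d)
    {Γ : Type w} [Group Γ] (ρ : Γ →* G) (hfaith : ∀ γ, (∀ v : V, ρ γ • v = v) → γ = 1)
    (b : G) (hb : ∀ n ≥ 1, ∃ y : V, b ^ n • y = y ∧ ∀ y' : V, b ^ n • y' = y' → y' = y)
    (Φ : ℕ → Set ℝ) (hΦ : ∀ n, (Φ n).Finite)
    (htr : ∀ n ≥ 1, ∀ γ, (∃ v : V, (ρ γ * b ^ n) • v = v) →
      LinearMap.trace ℝ V (T.L (ρ γ * b ^ n)) ∈ Φ n) :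
    ∃ Γ' : Subgroup Γ, Γ'.FiniteIndex ∧ Group.IsNilpotent Γ' ∧
      ∃ (U : ℕ → Submodule ℝ V) (m : ℕ), U 0 = ⊥ ∧ U m = ⊤ ∧ Monotone U ∧
        ∀ γ ∈ Γ', ∀ j v, ∀ w ∈ U (j + 1), ρ γ • (v + w) - ρ γ • v - w ∈ U j := by
  obtain ⟨Γ', hfin, htr'⟩ := comp Γ V (T.L.comp ρ) (T.L b) Φ hΦ (by
      intro n hn w hw
      by_contra hw0
      obtain ⟨y, hy, huniq⟩ := hb n hn
      obtain ⟨y', hy', hne⟩ := (fix G V T (b ^ n)).2 y hy ⟨w, by rw [map_pow]; exact hw, hw0⟩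
      exact hne (huniq y' hy')) ((Group.isUnit b).map T.L) (by
      intro n hn γ hγ
      have e : T.L (ρ γ * b ^ n) = (T.L.comp ρ) γ * T.L b ^ n := by
        rw [map_mul, map_pow]
        rfl
      rw [← e]
      apply htr n hn
      apply (fix G V T _).1
      rw [e]
      exact hγ)
  let _ : MulAction Γ' V := MulAction.compHom V (ρ.comp Γ'.subtype)
  have hsm : ∀ (γ : Γ') (v : V), γ • v = (ρ.comp Γ'.subtype) γ • v := fun γ v => rfl
  obtain ⟨U, m, hU0, hUm, hUmono, hU⟩ := kol Γ' V (T.L.comp (ρ.comp Γ'.subtype)) (fun γ => htr' γ γ.2)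
  obtain ⟨U', m', hU0', hUm', hUmono', hU'⟩ := ref Γ' V (T.pull (ρ.comp Γ'.subtype) hsm) U m hU0 hUm
    hUmono hU
  have hfaith' : FaithfulSMul Γ' V := by
    refine ⟨fun {γ₁ γ₂} h => ?_⟩
    have h1 : γ₂⁻¹ * γ₁ = 1 := by
      apply Subtype.ext
      apply hfaith
      intro v
      have h2 := h v
      rw [hsm, hsm] at h2
      show ρ ((γ₂ : Γ)⁻¹ * γ₁) • v = v
      rw [map_mul, map_inv, mul_smul, inv_smul_eq_iff]
      exact h2
    exact (inv_mul_eq_one.mp h1).symm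
  refine ⟨Γ', hfin, nil Γ' V U' m' d hU0' hUm' hUmono' hU' (fun γ ℓ => hpoly _ ℓ),
    U', m', hU0', hUm', hUmono', fun γ hγ j v w hw => hU' ⟨γ, hγ⟩ j v w hw⟩

end Pool.Agent.N235.TA
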