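import Mathlib

/-!
# Project TA (helper235): transversely polynomial Anosov diffeomorphisms, statements of the parts

The parts are pure algebra (only Mathlib).
-/

set_option autoImplicit false

open Module

namespace Pool.Agent.N235.TA

universe u v

/-- **Part COMP.** A group `Γ` which acts linearly on a finite-dimensional real vector space `W` (by
`L`), and an invertible operator `D` of `W` whose positive powers do not have the eigenvalue `1`.
Suppose that for `n ≥ 1` and `γ ∈ Γ` either `L γ * D ^ n` has the eigenvalue `1` or the trace of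
`L γ * D ^ n` belongs to a finite set `Φ n`. Then `trace (L γ) = dim W` on a subgroup of finite
index. -/
def Comp : Prop := ∀ (Γ : Type u) [Group Γ] (W : Type v) [AddCommGroup W] [Module ℝ W]
  [FiniteDimensional ℝ W] (L : Γ →* (W →ₗ[ℝ] W)) (D : W →ₗ[ℝ] W) (Φ : ℕ → Set ℝ),
  (∀ n, (Φ n).Finite) →
  (∀ n ≥ 1, ∀ w, (D ^ n) w = w → w = 0) →
  IsUnit D →
  (∀ n ≥ 1, ∀ γ, (∀ w, (L γ * D ^ n) w = w → w = 0) →
    LinearMap.trace ℝ W (L γ * D ^ n) ∈ Φ n) →
  ∃ Γ' : Subgroup Γ, Γ'.FiniteIndex ∧ ∀ γ ∈ Γ', LinearMap.trace ℝ W (L γ) = finrank ℝ W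

/-- **Part KOL** (a form of Kolchin's theorem). If `trace (L γ) = dim W` for all elements of a group
then there is a flag on whose quotients the group acts trivially. -/
def Kol : Prop := ∀ (Γ : Type u) [Group Γ] (W : Type v) [AddCommGroup W] [Module ℝ W]
  [FiniteDimensional ℝ W] (L : Γ →* (W →ₗ[ℝ] W)),
  (∀ γ, LinearMap.trace ℝ W (L γ) = finrank ℝ W) →
  ∃ (U : ℕ → Submodule ℝ W) (m : ℕ), U 0 = ⊥ ∧ U m = ⊤ ∧ Monotone U ∧
    ∀ γ j, ∀ w ∈ U (j + 1), L γ w - w ∈ U j

/-- The group `G` acts on the vector space `V` by maps which are affine along the flag `F`, with the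
linear parts `L`: `g • (v + w) = g • v + L g w` modulo `F i` for `w ∈ F (i + 1)`. -/
structure TriAct (G : Type u) [Group G] (V : Type v) [AddCommGroup V] [Module ℝ V]
    [MulAction G V] where
  /-- the flag -/
  F : ℕ → Submodule ℝ V
  /-- the length of the flag -/
  r : ℕ
  zero : F 0 = ⊥
  top : F r = ⊤
  mono : Monotone F
  /-- the linear parts -/
  L : G →* (V →ₗ[ℝ] V)
  map : ∀ g i, ∀ w ∈ F i, L g w ∈ F i
  tri : ∀ g i, ∀ v, ∀ w ∈ F (i + 1), g • (v + w) - g • v - L g w ∈ F i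

/-- **Part FIX.** (1) `g` has a fixed point if `L g` does not have the eigenvalue `1`; (2) if `g` has
a fixed point `y` and `L g` has the eigenvalue `1`, then `g` has another fixed point. -/
def Fix : Prop := ∀ (G : Type u) [Group G] (V : Type v) [AddCommGroup V] [Module ℝ V]
  [FiniteDimensional ℝ V] [MulAction G V] (T : TriAct G V) (g : G),
  ((∀ w, T.L g w = w → w = 0) → ∃ v : V, g • v = v) ∧
  ∀ y : V, g • y = y → (∃ w, T.L g w = w ∧ w ≠ 0) → ∃ y' : V, g • y' = y' ∧ y' ≠ y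

/-- The polynomial functions of degree `≤ d` on `V`: the linear combinations of the products of at
most `d` linear forms. -/
def polyFun (V : Type v) [AddCommGroup V] [Module ℝ V] (d : ℕ) : Submodule ℝ (V → ℝ) :=
  Submodule.span ℝ {f | ∃ k ≤ d, ∃ ℓ : Fin k → Dual ℝ V, f = fun v => ∏ i, ℓ i v}

/-- **Part NIL.** Let the group `Γ` act faithfully on `V` such that for some flag `U` and all `γ`
`γ • (v + w) = γ • v + w` modulo `U j` for `w ∈ U (j + 1)`, and such that the coordinates of `γ • v`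
are polynomial functions of `v` of degree `≤ d`. Then `Γ` is nilpotent. -/
def Nil : Prop := ∀ (Γ : Type u) [Group Γ] (V : Type v) [AddCommGroup V] [Module ℝ V]
  [FiniteDimensional ℝ V] [MulAction Γ V] [FaithfulSMul Γ V] (U : ℕ → Submodule ℝ V) (m d : ℕ),
  U 0 = ⊥ → U m = ⊤ → Monotone U →
  (∀ (γ : Γ) j v, ∀ w ∈ U (j + 1), γ • (v + w) - γ • v - w ∈ U j) →
  (∀ (γ : Γ) (ℓ : Dual ℝ V), (fun v : V => ℓ (γ • v)) ∈ polyFun V d) →
  Group.IsNilpotent Γ

/-- **Part REF** (refinement of the flag). -/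
def Ref : Prop := ∀ (Γ : Type u) [Group Γ] (V : Type v) [AddCommGroup V] [Module ℝ V]
  [FiniteDimensional ℝ V] [MulAction Γ V] (T : TriAct Γ V) (U : ℕ → Submodule ℝ V) (m : ℕ),
  U 0 = ⊥ → U m = ⊤ → Monotone U → (∀ γ j, ∀ w ∈ U (j + 1), T.L γ w - w ∈ U j) →
  ∃ (U' : ℕ → Submodule ℝ V) (m' : ℕ), U' 0 = ⊥ ∧ U' m' = ⊤ ∧ Monotone U' ∧
    ∀ (γ : Γ) j v, ∀ w ∈ U' (j + 1), γ • (v + w) - γ • v - w ∈ U' j

end Pool.Agent.N235.TA
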