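import Mathlib
import Pool.Agent.N235.TA.Stm

/-!
# Project TA: part COMP
-/

set_option autoImplicit false

open Module TopologicalSpace
open scoped Pointwise

namespace Pool.Agent.N235.TA

universe u v

namespace CompAux

/-- a group with a noetherian topology and continuous left translations has a subgroup of finite
index inside an irreducible set which contains `1` -/
lemma top_step (Γ : Type u) [Group Γ] [TopologicalSpace Γ] [NoetherianSpace Γ]
    (hc : ∀ γ : Γ, Continuous (fun x : Γ => γ * x)) :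
    ∃ (Γ' : Subgroup Γ) (C : Set Γ), Γ'.FiniteIndex ∧ IsIrreducible C ∧ (1 : Γ) ∈ C ∧
      ∀ γ ∈ Γ', γ ∈ C := by
  have h1 : ∀ (γ : Γ) (S : Set Γ), IsIrreducible S → IsIrreducible (γ • S) := fun γ S hS =>
    hS.image (fun x => γ * x) (hc γ).continuousOn
  have h2 : ∀ (γ : Γ) (S : Set Γ), S ∈ irreducibleComponents Γ → γ • S ∈ irreducibleComponents Γ := by
    intro γ S hS
    refine ⟨h1 γ S hS.1, fun T hT hle => ?_⟩
    have h3 : S ≤ γ⁻¹ • T := by
      intro x hx
      rw [Set.mem_inv_smul_set_iff]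
      exact hle (Set.smul_mem_smul_set hx)
    have h4 := hS.2 (h1 γ⁻¹ T hT) h3
    intro x hx
    rw [Set.mem_smul_set_iff_inv_smul_mem]
    exact h4 (Set.smul_mem_smul_set hx)
  refine ⟨MulAction.stabilizer Γ (irreducibleComponent (1 : Γ)), irreducibleComponent (1 : Γ), ?_,
    isIrreducible_irreducibleComponent, mem_irreducibleComponent, fun γ hγ => ?_⟩
  · refine ⟨?_⟩
    rw [MulAction.index_stabilizer]
    have hfin : (MulAction.orbit Γ (irreducibleComponent (1 : Γ))).Finite := by
      refine (NoetherianSpace.finite_irreducibleComponents (α := Γ)).subset ?_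
      rintro _ ⟨γ, rfl⟩
      exact h2 γ _ (irreducibleComponent_mem_irreducibleComponents 1)
    exact (Set.ncard_pos hfin).mpr (MulAction.nonempty_orbit _) |>.ne'
  · have h5 : γ • irreducibleComponent (1 : Γ) = irreducibleComponent (1 : Γ) := hγ
    rw [← h5]
    exact ⟨1, mem_irreducibleComponent, mul_one γ⟩

section

variable {Γ : Type u} [Group Γ] {n : ℕ}

/-- the point of the spectrum -/
noncomputable def pt (M : Γ →* Matrix (Fin n) (Fin n) ℝ) (γ : Γ) :
    PrimeSpectrum (MvPolynomial (Fin n × Fin n) ℝ) :=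
  ⟨RingHom.ker (MvPolynomial.eval (fun p : Fin n × Fin n => M γ p.1 p.2)), RingHom.ker_isPrime _⟩

/-- the topology -/
noncomputable abbrev tp (M : Γ →* Matrix (Fin n) (Fin n) ℝ) : TopologicalSpace Γ :=
  TopologicalSpace.induced (pt M) inferInstance

lemma noeth (M : Γ →* Matrix (Fin n) (Fin n) ℝ) : @NoetherianSpace Γ (tp M) := by
  let _ := tp M
  exact (Topology.IsInducing.mk rfl : Topology.IsInducing (pt M)).noetherianSpace

/-- zero sets are closed -/
lemma closed (M : Γ →* Matrix (Fin n) (Fin n) ℝ) (p : MvPolynomial (Fin n × Fin n) ℝ) :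
    @IsClosed Γ (tp M) {γ | MvPolynomial.eval (fun q : Fin n × Fin n => M γ q.1 q.2) p = 0} := by
  let _ := tp M
  have h : {γ | MvPolynomial.eval (fun q : Fin n × Fin n => M γ q.1 q.2) p = 0} =
      pt M ⁻¹' PrimeSpectrum.zeroLocus {p} := by
    ext γ
    simp only [Set.mem_ofPred_eq, Set.mem_preimage, PrimeSpectrum.mem_zeroLocus,
      Set.singleton_subset_iff, SetLike.mem_coe]
    exact Iff.rfl
  rw [h]
  exact (PrimeSpectrum.isClosed_zeroLocus _).preimage continuous_induced_dom

/-- left translation on polynomials -/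
noncomputable def tr (A : Matrix (Fin n) (Fin n) ℝ) :
    MvPolynomial (Fin n × Fin n) ℝ →+* MvPolynomial (Fin n × Fin n) ℝ :=
  MvPolynomial.eval₂Hom MvPolynomial.C
    (fun q => ∑ k, MvPolynomial.C (A q.1 k) * MvPolynomial.X (k, q.2))

lemma eval_tr (A B : Matrix (Fin n) (Fin n) ℝ) (p : MvPolynomial (Fin n × Fin n) ℝ) :
    MvPolynomial.eval (fun q : Fin n × Fin n => B q.1 q.2) (tr A p) =
      MvPolynomial.eval (fun q : Fin n × Fin n => (A * B) q.1 q.2) p := by
  have h : (MvPolynomial.eval (fun q : Fin n × Fin n => B q.1 q.2)).comp (tr A) =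
      MvPolynomial.eval (fun q : Fin n × Fin n => (A * B) q.1 q.2) := by
    apply MvPolynomial.ringHom_ext
    · intro r
      simp [tr]
    · intro q
      simp [tr, Matrix.mul_apply]
  exact RingHom.congr_fun h p

lemma cont (M : Γ →* Matrix (Fin n) (Fin n) ℝ) (γ : Γ) :
    @Continuous Γ Γ (tp M) (tp M) (fun x => γ * x) := by
  let _ := tp M
  rw [continuous_induced_rng]
  have h : pt M ∘ (fun x => γ * x) = PrimeSpectrum.comap (tr (M γ)) ∘ pt M := by
    funext x
    apply PrimeSpectrum.ext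
    ext p
    show MvPolynomial.eval _ p = 0 ↔ MvPolynomial.eval _ (tr (M γ) p) = 0
    rw [eval_tr, map_mul]
  rw [h]
  exact (PrimeSpectrum.continuous_comap _).comp continuous_induced_dom

/-- the traces are constant on a subgroup of finite index -/
lemma mat_step (M : Γ →* Matrix (Fin n) (Fin n) ℝ) (D : Matrix (Fin n) (Fin n) ℝ) (Φ : ℕ → Set ℝ)
    (hΦ : ∀ k, (Φ k).Finite) (hD : ∀ k ≥ 1, (1 - D ^ k).det ≠ 0)
    (h : ∀ k ≥ 1, ∀ γ, (1 - M γ * D ^ k).det ≠ 0 → (M γ * D ^ k).trace ∈ Φ k) :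
    ∃ Γ' : Subgroup Γ, Γ'.FiniteIndex ∧ ∀ γ ∈ Γ', ∀ k ≥ 1, (M γ * D ^ k).trace = (D ^ k).trace := by
  let _ := tp M
  have : NoetherianSpace Γ := noeth M
  obtain ⟨Γ', C, hfi, hC, h1, hin⟩ := top_step Γ (fun γ => cont M γ)
  refine ⟨Γ', hfi, ?_⟩
  suffices hs : ∀ γ ∈ C, ∀ k ≥ 1, (M γ * D ^ k).trace = (D ^ k).trace from
    fun γ hγ => hs γ (hin γ hγ)
  intro γ hγ k hk
  -- the closed sets
  have hmap : ∀ (A : Matrix (Fin n) (Fin n) ℝ) (B : Matrix (Fin n) (Fin n) ℝ),
      (MvPolynomial.eval (fun q : Fin n × Fin n => B q.1 q.2)).mapMatrix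
        (Matrix.mvPolynomialX (Fin n) (Fin n) ℝ * (MvPolynomial.C : ℝ →+* _).mapMatrix A) = B * A := by
    intro A B
    rw [map_mul, Matrix.mvPolynomialX_mapMatrix_eval]
    congr 1
    ext i j
    simp
  have hc1 : IsClosed {x : Γ | (1 - M x * D ^ k).det = 0} := by
    have e : {x : Γ | (1 - M x * D ^ k).det = 0} = {x | MvPolynomial.eval
        (fun q : Fin n × Fin n => M x q.1 q.2)
        (1 - Matrix.mvPolynomialX (Fin n) (Fin n) ℝ *
          (MvPolynomial.C : ℝ →+* _).mapMatrix (D ^ k)).det = 0} := by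
      ext x
      simp only [Set.mem_ofPred_eq]
      rw [RingHom.map_det, map_sub, map_one, hmap]
    rw [e]
    exact closed M _
  have hc2 : ∀ t : ℝ, IsClosed {x : Γ | (M x * D ^ k).trace = t} := by
    intro t
    have e : {x : Γ | (M x * D ^ k).trace = t} = {x | MvPolynomial.eval
        (fun q : Fin n × Fin n => M x q.1 q.2)
        ((Matrix.mvPolynomialX (Fin n) (Fin n) ℝ *
          (MvPolynomial.C : ℝ →+* _).mapMatrix (D ^ k)).trace - MvPolynomial.C t) = 0} := by
      ext x
      simp only [Set.mem_ofPred_eq]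
      rw [map_sub, MvPolynomial.eval_C, sub_eq_zero]
      have h3 : MvPolynomial.eval (fun q : Fin n × Fin n => M x q.1 q.2)
          (Matrix.mvPolynomialX (Fin n) (Fin n) ℝ *
            (MvPolynomial.C : ℝ →+* _).mapMatrix (D ^ k)).trace = (M x * D ^ k).trace := by
        rw [← hmap (D ^ k) (M x)]
        unfold Matrix.trace
        rw [map_sum]
        rfl
      rw [h3]
    rw [e]
    exact closed M _
  classical
  have h4 := isIrreducible_iff_sUnion_isClosed.mp hC
    (insert {x : Γ | (1 - M x * D ^ k).det = 0}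
      ((hΦ k).toFinset.image (fun t => {x : Γ | (M x * D ^ k).trace = t}))) (by
      intro z hz
      rw [Finset.mem_insert, Finset.mem_image] at hz
      rcases hz with rfl | ⟨t, _, rfl⟩
      · exact hc1
      · exact hc2 t) (by
      intro x _
      by_cases hx : (1 - M x * D ^ k).det = 0
      · exact ⟨{x : Γ | (1 - M x * D ^ k).det = 0}, by
          rw [Finset.coe_insert]
          exact Set.mem_insert _ _, hx⟩
      · refine ⟨{y : Γ | (M y * D ^ k).trace = (M x * D ^ k).trace}, ?_, rfl⟩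
        rw [Finset.coe_insert, Finset.coe_image]
        right
        exact ⟨_, by simpa using h k hk x hx, rfl⟩)
  obtain ⟨z, hz, hCz⟩ := h4
  rw [Finset.mem_insert, Finset.mem_image] at hz
  rcases hz with rfl | ⟨t, _, rfl⟩
  · exfalso
    have h5 : (1 - M 1 * D ^ k).det = 0 := hCz h1
    rw [map_one, one_mul] at h5
    exact hD k hk h5
  · have h5 : (M 1 * D ^ k).trace = t := hCz h1
    have h6 : (M γ * D ^ k).trace = t := hCz hγ
    rw [map_one, one_mul] at h5
    rw [h6, h5]

end

/-- the Cayley-Hamilton step -/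
lemma ch_step {W : Type v} [AddCommGroup W] [Module ℝ W] [FiniteDimensional ℝ W]
    (D A : W →ₗ[ℝ] W) (hD : IsUnit D)
    (h : ∀ k ≥ 1, LinearMap.trace ℝ W (A * D ^ k) = 0) : LinearMap.trace ℝ W A = 0 := by
  have h1 : ∀ q : Polynomial ℝ, LinearMap.trace ℝ W (A * (D * Polynomial.aeval D q)) = 0 := by
    intro q
    induction q using Polynomial.induction_on' with
    | add p q hp hq => rw [map_add, mul_add, mul_add, map_add, hp, hq, add_zero]
    | monomial n a =>
      rw [Polynomial.aeval_monomial, ← Algebra.smul_def, mul_smul_comm, mul_smul_comm, map_smul,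
        ← pow_succ', h (n + 1) (Nat.le_add_left 1 n), smul_zero]
  have h2 := LinearMap.aeval_self_charpoly D
  rw [← Polynomial.divX_mul_X_add (LinearMap.charpoly D), mul_comm, map_add, map_mul,
    Polynomial.aeval_X, Polynomial.aeval_C] at h2
  have h3 := h1 (LinearMap.charpoly D).divX
  rw [eq_neg_of_add_eq_zero_left h2, mul_neg, map_neg, neg_eq_zero, ← Algebra.commutes,
    ← Algebra.smul_def, map_smul, smul_eq_mul] at h3
  rcases mul_eq_zero.mp h3 with h4 | h4
  · exfalso
    have h5 := LinearMap.det_eq_sign_charpoly_coeff D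
    rw [h4, mul_zero] at h5
    have h6 := (LinearMap.isUnit_iff_isUnit_det D).mp hD
    rw [h5] at h6
    exact not_isUnit_zero h6
  · exact h4

end CompAux

open CompAux

/-- **Part COMP.** -/
theorem comp : Comp.{u, v} := by
  intro Γ _ W _ _ _ L D Φ hΦ hD hDu h
  let b := finBasis ℝ W
  let M : Γ →* Matrix (Fin (finrank ℝ W)) (Fin (finrank ℝ W)) ℝ :=
    ((LinearMap.toMatrixAlgEquiv b : (W →ₗ[ℝ] W) →* Matrix _ _ ℝ)).comp L
  have hM : ∀ (γ : Γ) (k : ℕ), M γ * (LinearMap.toMatrixAlgEquiv b D) ^ k =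
      LinearMap.toMatrixAlgEquiv b (L γ * D ^ k) := by
    intro γ k
    rw [map_mul, map_pow]
    rfl
  have hdet : ∀ T : W →ₗ[ℝ] W, (1 - LinearMap.toMatrixAlgEquiv b T).det ≠ 0 ↔ ∀ w, T w = w → w = 0 := by
    intro T
    rw [← map_one (LinearMap.toMatrixAlgEquiv b), ← map_sub]
    have e : (LinearMap.toMatrixAlgEquiv b (1 - T)).det = LinearMap.det (1 - T) := by
      exact LinearMap.det_toMatrix b (1 - T)
    rw [e, ← isUnit_iff_ne_zero, ← LinearMap.isUnit_iff_isUnit_det, LinearMap.isUnit_iff_ker_eq_bot,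
      LinearMap.ker_eq_bot']
    refine forall_congr' fun w => ?_
    rw [LinearMap.sub_apply, sub_eq_zero, Module.End.one_apply, eq_comm]
  have htr : ∀ T : W →ₗ[ℝ] W, (LinearMap.toMatrixAlgEquiv b T).trace = LinearMap.trace ℝ W T := by
    intro T
    exact (LinearMap.trace_eq_matrix_trace ℝ b T).symm
  obtain ⟨Γ', hfi, hΓ'⟩ := mat_step M (LinearMap.toMatrixAlgEquiv b D) Φ hΦ (by
    intro k hk
    rw [← map_pow, hdet]
    exact hD k hk) (by
    intro k hk γ hγ
    rw [hM] at hγ ⊢
    rw [htr]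
    exact h k hk γ ((hdet _).mp hγ))
  refine ⟨Γ', hfi, fun γ hγ => ?_⟩
  have h1 : LinearMap.trace ℝ W (L γ - 1) = 0 := by
    refine ch_step D (L γ - 1) hDu fun k hk => ?_
    rw [sub_mul, one_mul, map_sub, ← htr, ← htr, map_pow, ← hM, hΓ' γ hγ k hk, sub_self]
  rw [map_sub, LinearMap.trace_one, sub_eq_zero] at h1
  exact h1

end Pool.Agent.N235.TA
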