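import Pool.Agent.H789R2.AN.Top

set_option autoImplicit false

open Filter Topology Set Metric

namespace Pool.Agent.N235.TA

open Pool.Agent.H789R2.AN

variable {X : Type*} [MetricSpace X]

theorem iter_swap (g : X ≃ₜ X) (m n : ℕ) (x : X) : g^[m] (g^[n] x) = g^[n] (g^[m] x) := by
  rw [← Function.iterate_add_apply, ← Function.iterate_add_apply, Nat.add_comm]

/-- A stable leaf which is mapped to itself by `g ^ n` contains a fixed point of `g ^ n`. -/
theorem exists_fix [CompactSpace X] {g : X ≃ₜ X} {c : ℝ} (h : LP g c) {n : ℕ} (hn : 1 ≤ n) {u : X}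
    (hu : WS g u (g^[n] u)) : ∃ q, g^[n] q = q ∧ WS g u q := by
  have hc := h.c_pos
  obtain ⟨m, hm⟩ := hu.eventually_lt hc
  obtain ⟨a, ha⟩ : ∃ a, a = g^[m] u := ⟨_, rfl⟩
  have hSR : SR g c a (g^[n] a) := by
    intro k
    rw [ha, iter_swap g n m, ← Function.iterate_add_apply, ← Function.iterate_add_apply]
    exact (hm _ (by omega)).le
  have hdec := h.cS _ _ hSR
  have hstep : ∀ j k : ℕ, dist (g^[j] (g^[n * k] a)) (g^[j] (g^[n * (k + 1)] a)) ≤
      c * (1 / 2) ^ j * (1 / 2) ^ k := by
    intro j k
    have e1 : g^[j] (g^[n * k] a) = g^[j + n * k] a := (Function.iterate_add_apply _ _ _ _).symm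
    have e2 : g^[j] (g^[n * (k + 1)] a) = g^[j + n * k] (g^[n] a) := by
      rw [← Function.iterate_add_apply, ← Function.iterate_add_apply]
      exact congrArg (fun i => g^[i] a) (by ring)
    rw [e1, e2]
    refine (hdec (j + n * k)).trans ?_
    rw [mul_assoc, ← pow_add]
    refine mul_le_mul_of_nonneg_left (pow_le_pow_of_le_one (by norm_num) (by norm_num) ?_) hc.le
    have : k ≤ n * k := Nat.le_mul_of_pos_left k hn
    omega
  have hcau : CauchySeq (fun k => g^[n * k] a) := by
    refine cauchySeq_of_le_geometric (1 / 2) c (by norm_num) fun k => ?_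
    have := hstep 0 k
    simpa using this
  obtain ⟨q', hq'⟩ := cauchySeq_tendsto_of_complete hcau
  have hfix : g^[n] q' = q' := by
    have h1 : Tendsto (fun k => g^[n] (g^[n * k] a)) atTop (𝓝 (g^[n] q')) :=
      ((g.continuous.iterate n).tendsto q').comp hq'
    have h2 : Tendsto (fun k => g^[n * (k + 1)] a) atTop (𝓝 q') :=
      hq'.comp (tendsto_add_atTop_nat 1)
    have h3 : (fun k => g^[n * (k + 1)] a) = fun k => g^[n] (g^[n * k] a) := by
      funext k
      rw [← Function.iterate_add_apply]
      exact congrArg (fun i => g^[i] a) (by ring)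
    rw [h3] at h2
    exact tendsto_nhds_unique h1 h2
  have hws : WS g a q' := by
    have hb : ∀ j : ℕ, dist (g^[j] a) (g^[j] q') ≤ c * (1 / 2) ^ j / (1 - 1 / 2) := by
      intro j
      have h1 : Tendsto (fun k => g^[j] (g^[n * k] a)) atTop (𝓝 (g^[j] q')) :=
        ((g.continuous.iterate j).tendsto q').comp hq'
      have h2 := dist_le_of_le_geometric_of_tendsto₀ (1 / 2) (c * (1 / 2) ^ j) (by norm_num)
        (hstep j) h1
      simpa using h2
    refine WS.of_SR (c := 2 * c) fun j => ?_
    refine (hb j).trans (le_of_eq ?_)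
    ring
  refine ⟨g.symm^[m] q', ?_, ?_⟩
  · have h1 : g^[m] (g^[n] (g.symm^[m] q')) = g^[m] (g.symm^[m] q') := by
      rw [iter_swap g m n, iterR, hfix]
    exact (g.injective.iterate m) h1
  · rw [← WS.iter m, iterR, ← ha]
    exact hws

/-- `g ^ n` has finitely many fixed points. -/
theorem finite_fix [CompactSpace X] {g : X ≃ₜ X} {c : ℝ} (h : LP g c) {n : ℕ} (hn : 1 ≤ n) :
    {q | g^[n] q = q}.Finite := by
  have hc := h.c_pos
  have hclosed : IsClosed {q | g^[n] q = q} := isClosed_eq (g.continuous.iterate n) continuous_id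
  -- separation
  have hsep : ∃ δ > 0, ∀ q q', g^[n] q = q → g^[n] q' = q' → dist q q' < δ → q = q' := by
    have hun : ∃ δ > 0, ∀ j ≤ n, ∀ x y : X, dist x y < δ → dist (g^[j] x) (g^[j] y) < c := by
      have key : ∀ N : ℕ, ∃ δ > 0, ∀ j ≤ N, ∀ x y : X, dist x y < δ →
          dist (g^[j] x) (g^[j] y) < c := by
        intro N
        induction N with
        | zero =>
          refine ⟨c, hc, fun j hj x y hxy => ?_⟩
          rw [Nat.le_zero.mp hj]
          exact hxy
        | succ N ih =>
          obtain ⟨δ, hδ, h1⟩ := ih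
          have huc : UniformContinuous (g^[N + 1]) :=
            CompactSpace.uniformContinuous_of_continuous (g.continuous.iterate _)
          rw [Metric.uniformContinuous_iff] at huc
          obtain ⟨δ', hδ', h2⟩ := huc c hc
          refine ⟨min δ δ', lt_min hδ hδ', fun j hj x y hxy => ?_⟩
          rcases Nat.lt_or_ge j (N + 1) with hlt | hge
          · exact h1 j (by omega) x y (hxy.trans_le (min_le_left _ _))
          · have : j = N + 1 := le_antisymm hj hge
            rw [this]
            exact h2 (hxy.trans_le (min_le_right _ _))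
      exact key n
    obtain ⟨δ, hδ, h1⟩ := hun
    refine ⟨δ, hδ, fun q q' hq hq' hd => ?_⟩
    have hper : ∀ (k : ℕ) (z : X), g^[n] z = z → g^[n * k] z = z := by
      intro k z hz
      induction k with
      | zero => simp
      | succ k ih => rw [Nat.mul_succ, Function.iterate_add_apply, hz, ih]
    have hSR : SR g c q q' := by
      intro k
      have e : ∀ z : X, g^[n] z = z → g^[k] z = g^[k % n] z := by
        intro z hz
        conv_lhs => rw [← Nat.mod_add_div k n]
        rw [Function.iterate_add_apply, hper _ z hz]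
      rw [e q hq, e q' hq']
      exact (h1 _ (Nat.mod_lt _ hn).le _ _ hd).le
    have hdec := h.cS _ _ hSR
    have hle : ∀ k : ℕ, dist q q' ≤ c * (1 / 2) ^ k := by
      intro k
      have h2 := hdec (n * k)
      rw [hper k q hq, hper k q' hq'] at h2
      refine h2.trans (mul_le_mul_of_nonneg_left
        (pow_le_pow_of_le_one (by norm_num) (by norm_num) (Nat.le_mul_of_pos_left k hn)) hc.le)
    have hlim : Tendsto (fun k : ℕ => c * (1 / 2 : ℝ) ^ k) atTop (𝓝 0) := by
      have := (tendsto_pow_atTop_nhds_zero_of_lt_one (by norm_num : (0:ℝ) ≤ 1 / 2)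
        (by norm_num)).const_mul c
      simpa using this
    exact dist_le_zero.mp (ge_of_tendsto' hlim hle)
  obtain ⟨δ, hδ, h1⟩ := hsep
  have hdisc : DiscreteTopology {q | g^[n] q = q} := by
    rw [discreteTopology_subtype_iff]
    intro x hx
    rw [inf_principal_eq_bot]
    rw [mem_nhdsWithin_iff_exists_mem_nhds_inter]
    refine ⟨ball x δ, ball_mem_nhds x hδ, fun y hy hyf => ?_⟩
    exact hy.2 (h1 y x hyf hx hy.1)
  exact hclosed.isCompact.finite (isDiscrete_iff_discreteTopology.mpr hdisc)

end Pool.Agent.N235.TA
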