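import Pool.Agent.N234.TG.Tra
import Pool.Agent.H779R2.An.CChart
import Pool.Agent.H789R2.AN.Hyp
import Pool.Agent.Helper514.IoD

set_option autoImplicit false
set_option linter.unusedSectionVars false

open Filter Topology Set Metric

namespace Pool.Agent.N235.TA

open Pool.Agent.H721R2 Pool.Agent.H789R2.AN Pool.Agent.H779R2.An Pool.Agent.N234.TG

variable {X : Type*} [MetricSpace X] {g : X ≃ₜ X} {G Y : Type*} [Group G] [TopologicalSpace G]
  [IsTopologicalGroup G] [TopologicalSpace Y] [T2Space Y] [LocallyCompactSpace Y] [MulAction G Y]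
  [ContinuousSMul G Y]

/-- the charts are continuous at the base point -/
theorem tendsto_p (C : TS g G Y) (y : X) :
    Tendsto (fun z => C.π y z • C.p z) (𝓝 y) (𝓝 (C.p y)) := by
  rw [_root_.tendsto_nhds]
  intro N hN hyN
  have hO : ({q : Y × Y | q.1 ≠ C.p y} ∪ (univ ×ˢ N) : Set (Y × Y)) ∈ 𝓝ˢ (diagonal Y) := by
    refine ((isOpen_ne.preimage continuous_fst).union (isOpen_univ.prod hN)).mem_nhdsSet.mpr ?_
    rintro ⟨a, b⟩ (hab : a = b)
    subst hab
    by_cases ha : a = C.p y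
    · subst ha
      exact Or.inr ⟨mem_univ _, hyN⟩
    · exact Or.inl ha
  obtain ⟨δ, hδ, h1⟩ := C.small _ hO
  filter_upwards [ball_mem_nhds y hδ] with z hz
  rcases h1 y z (by rw [dist_comm]; exact hz) with h2 | h2
  · exact absurd rfl h2
  · exact h2.2

theorem tendsto_p' (C : TS g G Y) {x y : X} (hxy : dist x y < C.η) :
    Tendsto (fun z => C.π x z • C.p z) (𝓝 y) (𝓝 (C.π x y • C.p y)) := by
  have h1 : Tendsto (fun z => C.π x y • (C.π y z • C.p z)) (𝓝 y) (𝓝 (C.π x y • C.p y)) :=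
    (tendsto_p C y).const_smul _
  refine h1.congr' ?_
  have h2 : ∀ᶠ z in 𝓝 y, dist x z < C.η :=
    (continuous_const.dist continuous_id).continuousAt.eventually_lt continuousAt_const hxy
  filter_upwards [h2, ball_mem_nhds y C.η_pos] with z hz hz'
  rw [C.add x y z hxy (by rw [dist_comm]; exact hz') hz, mul_smul]

/-- the set of positions of an unstable leaf -/
def posSet (C : TS g G Y) (p : X) : Set Y := {v | ∃ u, WS g.symm p u ∧ C.cu p u • C.p u = v}

variable {F V : Type*} [CompactSpace X] [NormedAddCommGroup F] [InnerProductSpace ℝ F]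
  [FiniteDimensional ℝ F] [NormedAddCommGroup V] [NormedSpace ℝ V] [FiniteDimensional ℝ V]
  [MulAction G V] [ContinuousSMul G V]

theorem posSet_mem_nhds (S : HypSys X F) (C : TS S.g G V)
    (hu : ∀ x, Module.finrank ℝ (S.Vu x) = Module.finrank ℝ V) (p : X) :
    posSet C p ∈ 𝓝 (C.p p) := by
  obtain ⟨c, h⟩ := exists_LP S
  have hη := C.η_pos
  have hc := h.c_pos
  set ε := min (C.η / 4) c with hε
  have hε0 : 0 < ε := by positivity
  have l1 : ε ≤ C.η / 4 := min_le_left _ _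
  have l2 : ε ≤ c := min_le_right _ _
  obtain ⟨ρ₁, hρ₁, ρ', -, hch⟩ := chart_prop S.symm _ hu ε hε0
  obtain ⟨ψ, hψ, -⟩ := hch p
  have hrel : ∀ a, ‖a‖ ≤ ρ₁ → SR S.g.symm ε p (ψ a) := fun a ha => hψ.rel a ha
  have hd : ∀ a, ‖a‖ ≤ ρ₁ → dist p (ψ a) < C.η := fun a ha => by
    have : dist p (ψ a) ≤ ε := hrel a ha 0
    linarith
  have hcu : ∀ a, ‖a‖ ≤ ρ₁ → C.cu p (ψ a) = C.π p (ψ a) := fun a ha =>
    C.cu_eq_π (by linarith : ε < C.η) (hrel a ha)
  have hws : ∀ a, ‖a‖ ≤ ρ₁ → WS S.g.symm p (ψ a) := fun a ha =>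
    WS.of_SR (h.cU _ _ ((hrel a ha).mono l2))
  have hψc : ContinuousOn ψ (closedBall 0 ρ₁) := by
    intro a ha
    rw [Metric.continuousWithinAt_iff]
    intro e he
    refine ⟨e / 2, half_pos he, fun {b} hb hba => ?_⟩
    rw [mem_closedBall_zero_iff] at ha hb
    have h1 := hψ.le b a hb ha
    rw [dist_eq_norm] at hba
    linarith
  let L : V ≃L[ℝ] EuclideanSpace ℝ (Fin (Module.finrank ℝ V)) :=
    ContinuousLinearEquiv.ofFinrankEq (by simp)
  have hFc : ContinuousOn (fun a => L (C.π p (ψ a) • C.p (ψ a))) (closedBall 0 ρ₁) := by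
    refine L.continuous.comp_continuousOn fun a ha => ?_
    exact (tendsto_p' C (hd a (mem_closedBall_zero_iff.mp ha))).comp (hψc a ha)
  have hFi : InjOn (fun a => L (C.π p (ψ a) • C.p (ψ a))) (closedBall 0 ρ₁) := by
    intro a ha b hb hab
    rw [mem_closedBall_zero_iff] at ha hb
    have h1 : C.π p (ψ a) • C.p (ψ a) = C.π p (ψ b) • C.p (ψ b) := L.injective hab
    rw [← hcu a ha, ← hcu b hb] at h1
    have h2 : ψ a = ψ b := C.cu_cancel (hws a ha) (hws b hb) h1
    have h5 := hψ.ge a b ha hb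
    rw [h2, dist_self, mul_zero] at h5
    exact sub_eq_zero.mp (norm_le_zero_iff.mp h5)
  have h1 := Helper514.IoD.image_mem_nhds (fun a => L (C.π p (ψ a) • C.p (ψ a))) 0 ρ₁ hρ₁ hFc hFi
  have h0 : L (C.π p (ψ 0) • C.p (ψ 0)) = L (C.p p) := by
    rw [hψ.zero, C.self, one_smul]
  rw [h0] at h1
  filter_upwards [L.continuous.tendsto (C.p p) h1] with v hv
  obtain ⟨a, ha, hav⟩ := hv
  rw [mem_closedBall_zero_iff] at ha
  refine ⟨ψ a, hws a ha, ?_⟩
  rw [hcu a ha]
  exact L.injective hav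

/-- The unstable leaf of a periodic point covers `V`. -/
theorem posSet_eq (S : HypSys X F) (C : TS S.g G V)
    (hu : ∀ x, Module.finrank ℝ (S.Vu x) = Module.finrank ℝ V) {p : X} {N : ℕ} (hN : 1 ≤ N)
    (hp : S.g^[N] p = p) (v : V) : ∃ u, WS S.g.symm p u ∧ C.cu p u • C.p u = v := by
  obtain ⟨r, hr, hsub⟩ := Metric.nhds_basis_closedBall.mem_iff.mp (posSet_mem_nhds S C hu p)
  let seg : ℝ → V := fun t => C.p p + t • (v - C.p p)
  have hseg : Continuous seg := by fun_prop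
  obtain ⟨n₀, hn₀⟩ := C.expand ({C.p p} ×ˢ sphere (C.p p) r)
    (isCompact_singleton.prod (isCompact_sphere _ _)) (by
      rw [disjoint_left]
      rintro ⟨a, b⟩ ⟨ha, hb⟩ (hab : a = b)
      rw [mem_singleton_iff] at ha
      have hb' : dist b (C.p p) = r := hb
      have ha' : a = C.p p := ha
      rw [← hab, ha', dist_self] at hb'
      linarith) (seg '' Icc 0 1) (isCompact_Icc.image hseg)
  have hpn : ∀ k : ℕ, S.g^[N * k] p = p := by
    intro k
    induction k with
    | zero => simp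
    | succ k ih => rw [Nat.mul_succ, Function.iterate_add_apply, hp, ih]
  set n := N * n₀ with hn
  have hge : n₀ ≤ n := Nat.le_mul_of_pos_left _ hN
  have hgn : S.g^[n] p = p := hpn n₀
  set b := C.Bn n p with hb
  have hbp : b • C.p p = C.p p := by
    have := C.Bn_p n p
    rwa [hgn] at this
  have hbp' : b⁻¹ • C.p p = C.p p := by rw [inv_smul_eq_iff, hbp]
  have hle : dist (b⁻¹ • v) (C.p p) ≤ r := by
    by_contra hcon
    push Not at hcon
    have hcont : Continuous (fun t : ℝ => dist (b⁻¹ • seg t) (C.p p)) :=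
      (hseg.const_smul _).dist continuous_const
    have h0 : dist (b⁻¹ • seg 0) (C.p p) = 0 := by
      have : seg 0 = C.p p := by simp [seg]
      rw [this, hbp', dist_self]
    have h1 : seg 1 = v := by simp [seg]
    have hmem : r ∈ Icc (dist (b⁻¹ • seg 0) (C.p p)) (dist (b⁻¹ • seg 1) (C.p p)) := by
      rw [h0, h1]
      exact ⟨hr.le, hcon.le⟩
    obtain ⟨t, ht, htr⟩ := intermediate_value_Icc (zero_le_one) hcont.continuousOn hmem
    refine hn₀ n hge p (b⁻¹ • seg t) ⟨rfl, htr⟩ ?_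
    show b • b⁻¹ • seg t ∈ _
    rw [smul_inv_smul]
    exact ⟨t, ht, rfl⟩
  obtain ⟨u, hu1, hu2⟩ := hsub (show b⁻¹ • v ∈ closedBall (C.p p) r from hle)
  have hu' : WS S.g.symm p (S.g^[n] u) := by
    have := ws_iter hu1 n
    rwa [hgn] at this
  refine ⟨S.g^[n] u, hu', ?_⟩
  have hcu : C.cu p (S.g^[n] u) = b * C.cu p u * (C.Bn n u)⁻¹ := by
    have := C.cu_iter hu1 n
    rwa [hgn] at this
  rw [hcu, ← C.Bn_p n u, ← mul_smul, inv_mul_cancel_right, mul_smul, hu2, smul_inv_smul]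

end Pool.Agent.N235.TA
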