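import Pool.Agent.N234.TG.Pi1
import Pool.Agent.N235.TA.FP

set_option autoImplicit false
set_option linter.unusedSectionVars false

open Filter Topology Set Metric unitInterval

namespace Pool.Agent.N235.TA

open Pool.Agent.H789R2.AN Pool.Agent.H789R2.GP Pool.Agent.N234.TG

section pi

variable {A B : Type*} [TopologicalSpace A] [TopologicalSpace B] {π : A → B}

/-- The increments along two lifts of the same path agree. -/
theorem incr {G : Type*} [Group G] (D : A → G) (κ : B → B → G)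
    (hD : ∀ z, ∀ᶠ z' in 𝓝 z, D z' = D z * κ (π z) (π z')) (Γ Γ' : C(I, A))
    (hΓ : ∀ t, π (Γ t) = π (Γ' t)) :
    (D (Γ 0))⁻¹ * D (Γ 1) = (D (Γ' 0))⁻¹ * D (Γ' 1) := by
  have hl : IsLocallyConstant (fun t : I => D (Γ t) * (D (Γ' t))⁻¹) := by
    rw [IsLocallyConstant.iff_eventually_eq]
    intro t
    filter_upwards [Γ.continuous.tendsto t (hD (Γ t)), Γ'.continuous.tendsto t (hD (Γ' t))]
      with r h1 h2
    rw [h1, h2, hΓ t, hΓ r, mul_inv_rev]
    simp only [mul_assoc, mul_inv_cancel_left]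
  have h1 := hl.apply_eq_of_preconnectedSpace 0 1
  have h2 : D (Γ 1) = D (Γ 0) * (D (Γ' 0))⁻¹ * D (Γ' 1) := by
    rw [h1, inv_mul_cancel_right]
  rw [h2]
  simp only [mul_assoc, inv_mul_cancel_left]

/-- The deck transformation which moves `b` to `e`. -/
theorem deck {G : Type*} [Group G] [PathConnectedSpace A] (cov : IsCoveringMap π)
    (D : A → G) (κ : B → B → G) (hD : ∀ z, ∀ᶠ z' in 𝓝 z, D z' = D z * κ (π z) (π z'))
    (b e : A) (he : π e = π b) (z : A) :
    ∃ z', π z' = π z ∧ D z' = D e * (D b)⁻¹ * D z := by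
  obtain ⟨Γ⟩ := PathConnectedSpace.joined b z
  let γ : C(I, B) := ⟨fun t => π (Γ t), cov.continuous.comp Γ.continuous⟩
  have h0 : γ 0 = π e := by
    show π (Γ 0) = _
    rw [Γ.source, he]
  have hl : ∀ t, π (cov.liftPath γ e h0 t) = γ t := fun t =>
    congrFun (cov.liftPath_lifts γ e h0) t
  have h1 := incr D κ hD (cov.liftPath γ e h0) Γ.toContinuousMap (fun t => hl t)
  have h2 : cov.liftPath γ e h0 0 = e := cov.liftPath_zero _ _ _
  have h3 : Γ.toContinuousMap 0 = b := Γ.source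
  have h4 : Γ.toContinuousMap 1 = z := Γ.target
  rw [h2, h3, h4] at h1
  refine ⟨cov.liftPath γ e h0 1, ?_, ?_⟩
  · rw [hl]
    show π (Γ 1) = _
    rw [Γ.target]
  · rw [mul_assoc, ← h1, mul_inv_cancel_left]

/-- The holonomy representation, with its values at the points of the fibre. -/
theorem exists_hom' {G : Type*} [Group G] [SimplyConnectedSpace A] (cov : IsCoveringMap π)
    (D : A → G) (κ : B → B → G)
    (hD : ∀ z, ∀ᶠ z' in 𝓝 z, D z' = D z * κ (π z) (π z'))
    (hsep : ∀ z z', π z = π z' → D z = D z' → z = z') {x : B} (b : π ⁻¹' {x}) :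
    ∃ ρ : FundamentalGroup B x →* G, Function.Injective ρ ∧
      ∀ α, ∃ e : A, π e = x ∧ ρ α = (D b.1)⁻¹ * D e := by
  have key := incr D κ hD (π := π)
  have key2 : ∀ (α : FundamentalGroup B x) (e : π ⁻¹' {x}),
      (D e.1)⁻¹ * D (cov.monodromy α e).1 = (D b.1)⁻¹ * D (cov.monodromy α b).1 := by
    rintro ⟨γ⟩ e
    have h1 := key (cov.liftPath γ e.1 (γ.source.trans e.2.symm))
      (cov.liftPath γ b.1 (γ.source.trans b.2.symm)) (fun t =>
        (congrFun (cov.liftPath_lifts γ e.1 (γ.source.trans e.2.symm)) t).trans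
        (congrFun (cov.liftPath_lifts γ b.1 (γ.source.trans b.2.symm)) t).symm)
    rw [cov.liftPath_zero, cov.liftPath_zero] at h1
    exact h1
  let hol : FundamentalGroup B x → G := fun α => (D b.1)⁻¹ * D (cov.monodromy α b).1
  have hmul : ∀ α β, hol (α * β) = hol β * hol α := by
    intro α β
    have h1 : cov.monodromy (α * β) b = cov.monodromy α (cov.monodromy β b) :=
      cov.monodromy_trans_apply (x := x) (y := x) (z := x) β α b
    show (D b.1)⁻¹ * D (cov.monodromy (α * β) b).1 = ((D b.1)⁻¹ * D (cov.monodromy β b).1) *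
      ((D b.1)⁻¹ * D (cov.monodromy α b).1)
    rw [h1, ← key2 α (cov.monodromy β b)]
    simp only [mul_assoc, mul_inv_cancel_left]
  let ρ : FundamentalGroup B x →* G :=
    MonoidHom.mk' (fun α => (hol α)⁻¹) (fun α β => by rw [hmul, mul_inv_rev])
  refine ⟨ρ, ?_, fun α => ?_⟩
  · intro α β hαβ
    have h1 : (hol α)⁻¹ = (hol β)⁻¹ := hαβ
    have h2 : hol α = hol β := inv_injective h1
    have h3 : D (cov.monodromy α b).1 = D (cov.monodromy β b).1 := mul_left_cancel h2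
    apply mono_inj cov α β b
    apply Subtype.ext
    exact hsep _ _ ((cov.monodromy α b).2.trans (cov.monodromy β b).2.symm) h3
  · obtain ⟨β, hβ⟩ : ∃ β : FundamentalGroup B x, β = α⁻¹ := ⟨_, rfl⟩
    refine ⟨(cov.monodromy β b).1, (cov.monodromy β b).2, ?_⟩
    have h1 : ρ β = (hol β)⁻¹ := rfl
    rw [hβ, map_inv, inv_inj, ← hβ] at h1
    exact h1

end pi

variable {X : Type*} [MetricSpace X]

variable {g : X ≃ₜ X} {G Y : Type*} [Group G] [TopologicalSpace G] [IsTopologicalGroup G]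
  [TopologicalSpace Y] [T2Space Y] [LocallyCompactSpace Y] [MulAction G Y] [ContinuousSMul G Y]

/-- the position of the end point -/
theorem dev_pos (C : TS g G Y) {c : ℝ} (T : QS g c) (hT : ∀ a s u x, T.Q a s u x ↔ C.Qd a s u x)
    {p : X} (z : Leaf g p) : C.dev T z • C.p (z.pr T) = C.cu p z.u • C.p z.u := by
  obtain ⟨t1, t2, t3, t4, t5⟩ := (hT _ _ _ _).mp (z.pr_spec T)
  unfold LC.dev
  rw [mul_smul, C.cs_p t3]

/-- the point with the stable coordinate `p` -/
def uPt {p : X} (u : X) (hu : WS g.symm p u) : Leaf g p := ⟨u, p, hu, WS.refl _ p⟩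

theorem uPt_pr (C : TS g G Y) {c : ℝ} (T : QS g c) (hT : ∀ a s u x, T.Q a s u x ↔ C.Qd a s u x)
    {p : X} (u : X) (hu : WS g.symm p u) : (uPt u hu).pr T = u := by
  apply Leaf.pr_eq
  rw [hT]
  refine ⟨WS.refl _ _, hu, WS.refl _ _, hu, ?_⟩
  show C.cs p p * C.cu p u = C.cu p u * C.cs u u
  rw [C.cs_self, C.cs_self, one_mul, mul_one]

theorem uPt_dev (C : TS g G Y) {c : ℝ} (T : QS g c) (hT : ∀ a s u x, T.Q a s u x ↔ C.Qd a s u x)
    {p : X} (u : X) (hu : WS g.symm p u) : C.dev T (uPt u hu) = C.cu p u := by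
  unfold LC.dev
  rw [uPt_pr C T hT u hu]
  show C.cu p u * C.cs u u = _
  rw [C.cs_self, mul_one]

/-- **The fixed points of the holonomies composed with the iterates of `g`.** -/
theorem star [CompactSpace X] (C : TS g G Y) {c₀ c : ℝ} (h : LP g c₀) (T : QS g c)
    (hT : ∀ a s u x, T.Q a s u x ↔ C.Qd a s u x) {p : X} {n : ℕ} (hn : 1 ≤ n) (hp : g^[n] p = p)
    (hsurj : ∀ v : Y, ∃ u, WS g.symm p u ∧ C.cu p u • C.p u = v) (e : Leaf g p)
    (hdeck : ∀ z : Leaf g p, ∃ z' : Leaf g p, z'.pr T = z.pr T ∧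
      C.dev T z' = C.dev T e * C.dev T z)
    (v : Y) (hv : (C.dev T e * C.Bn n p) • v = v) :
    ∃ q, g^[n] q = q ∧ ∃ k : G, C.dev T e * C.Bn n p = k * C.Bn n q * k⁻¹ := by
  obtain ⟨u, hu, rfl⟩ := hsurj v
  have hu' : WS g.symm p (g^[n] u) := by
    have := ws_iter hu n
    rwa [hp] at this
  have hcu : C.cu p (g^[n] u) = C.Bn n p * C.cu p u * (C.Bn n u)⁻¹ := by
    have := C.cu_iter hu n
    rwa [hp] at this
  obtain ⟨z, hz1, hz2⟩ := hdeck (uPt (g^[n] u) hu')
  rw [uPt_pr C T hT] at hz1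
  rw [uPt_dev C T hT] at hz2
  have h1 := dev_pos C T hT z
  have h2 : C.dev T z • C.p (z.pr T) = C.cu p u • C.p u := by
    rw [hz1, hz2, hcu]
    have e1 : C.p (g^[n] u) = C.Bn n u • C.p u := (C.Bn_p n u).symm
    rw [e1, ← mul_smul]
    have e2 : C.dev T e * (C.Bn n p * C.cu p u * (C.Bn n u)⁻¹) * C.Bn n u =
        (C.dev T e * C.Bn n p) * C.cu p u := by
      simp only [mul_assoc, inv_mul_cancel, mul_one]
    rw [e2, mul_smul, hv]
  obtain ⟨t1, t2, t3, t4, t5⟩ := (hT _ _ _ _).mp (z.pr_spec T)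
  have h3 : z.u = u := C.cu_cancel t2 hu (h1.symm.trans h2)
  have h4 : WS g u (g^[n] u) := by
    rw [h3, hz1] at t3
    exact t3
  obtain ⟨q, hq, huq⟩ := exists_fix h hn h4
  have h5 : C.dev T z = C.cu p u * C.cs u (g^[n] u) := by
    unfold LC.dev
    rw [h3, hz1]
  have h6 : WS g q (g^[n] u) := huq.symm'.trans h4
  have h7 : C.cs q (g^[n] u) = C.Bn n q * C.cs q u * (C.Bn n u)⁻¹ := by
    have := C.cs_iter huq.symm' n
    rwa [hq] at this
  have h8 : C.dev T e * (C.Bn n p * C.cu p u * (C.Bn n u)⁻¹) =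
      C.cu p u * (C.cs u q * (C.Bn n q * C.cs q u * (C.Bn n u)⁻¹)) := by
    rw [← hcu, ← hz2, h5, C.cs_mul huq h6, h7]
  refine ⟨q, hq, C.cu p u * C.cs u q, ?_⟩
  have h9 : C.dev T e * C.Bn n p * C.cu p u = C.cu p u * C.cs u q * C.Bn n q * C.cs q u := by
    have := congrArg (· * C.Bn n u) h8
    simp only [mul_assoc, inv_mul_cancel, mul_one] at this
    simpa only [mul_assoc] using this
  rw [mul_inv_rev, ← C.cs_inv huq, ← mul_assoc, ← h9, mul_inv_cancel_right]

end Pool.Agent.N235.TA
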