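import Pool.Agent.N234.TG.Main
import Pool.Agent.N235.TA.Star
import Pool.Agent.N235.TA.Pos
import Pool.Agent.N235.TA.Alg

set_option autoImplicit false
set_option linter.unusedSectionVars false

open Filter Topology Set Metric Module
open scoped Manifold ContDiff Pointwise

namespace Pool.Agent.N235.TA

open Pool.Agent.H721R2 Pool.Agent.H789R2.AN Pool.Agent.H789R2.GP Pool.Agent.N234.TG
open Pool.Agent.W740.TC (att_univ exists_sys_ge)
open Pool.Agent.TH289.K (GPS)

section abs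

variable {X : Type*} [MetricSpace X] {g : X ≃ₜ X}

section gen

variable {G Y : Type*} [Group G] [TopologicalSpace G] [IsTopologicalGroup G]
  [TopologicalSpace Y] [T2Space Y] [LocallyCompactSpace Y] [MulAction G Y] [ContinuousSMul G Y]

/-- the holonomies act freely at the base point -/
theorem base_of_pos [CompactSpace X] (C : TS g G Y) {c : ℝ} (T : QS g c)
    (hT : ∀ a s u x, T.Q a s u x ↔ C.Qd a s u x) {p : X} {e : Leaf g p} (he : e.pr T = p)
    (hpos : C.dev T e • C.p p = C.p p) : e = Leaf.base g p := by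
  have h1 := dev_pos C T hT e
  rw [he, hpos] at h1
  obtain ⟨t1, t2, t3, t4, t5⟩ := (hT _ _ _ _).mp (e.pr_spec T)
  have h2 : p = e.u := C.cu_inj t2 h1.symm
  have h3 := T.flipU _ _ _ _ (e.pr_spec T)
  rw [he, ← h2] at h3
  have h4 : T.Q p p p p := (hT _ _ _ _).mpr ⟨WS.refl _ _, WS.refl _ _, WS.refl _ _, WS.refl _ _, by
    rw [C.cs_self, C.cu_self]⟩
  exact Leaf.ext h2.symm (T.unique _ _ _ _ _ h3 h4)

theorem Bn_pow (C : TS g G Y) {p : X} {N : ℕ} (hp : g^[N] p = p) (n : ℕ) :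
    C.Bn N p ^ n = C.Bn (N * n) p := by
  induction n with
  | zero => simp
  | succ n ih =>
    rw [pow_succ, ih, Nat.mul_succ, C.Bn_add, hp]

theorem fix_mul {p : X} {N : ℕ} (hp : g^[N] p = p) (n : ℕ) : g^[N * n] p = p := by
  induction n with
  | zero => simp
  | succ n ih => rw [Nat.mul_succ, Function.iterate_add_apply, hp, ih]

end gen

universe u v w

variable {F : Type*} {V : Type v} {G : Type u} [CompactSpace X] [NormedAddCommGroup F]
  [InnerProductSpace ℝ F]
  [FiniteDimensional ℝ F] [NormedAddCommGroup V] [NormedSpace ℝ V] [FiniteDimensional ℝ V]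
  [Group G] [TopologicalSpace G] [IsTopologicalGroup G] [MulAction G V] [ContinuousSMul G V]

/-- Abstract form. -/
theorem abs_ta {E' : Type*} [NormedAddCommGroup E'] [NormedSpace ℝ E'] [ProperSpace E']
    [ChartedSpace E' X] [ConnectedSpace X] (S : HypSys X F) (C : TS S.g G V)
    (hu : ∀ x, finrank ℝ (S.Vu x) = finrank ℝ V) (A : TriAct G V) (d : ℕ)
    (hpoly : ∀ (g : G) (ℓ : Dual ℝ V), (fun v : V => ℓ (g • v)) ∈ polyFun V d) (x : X) :
    ∃ ρ : FundamentalGroup X x →* G, Function.Injective ρ ∧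
      ∃ Γ' : Subgroup (FundamentalGroup X x), Γ'.FiniteIndex ∧ Group.IsNilpotent Γ' ∧
      ∃ (U : ℕ → Submodule ℝ V) (m : ℕ), U 0 = ⊥ ∧ U m = ⊤ ∧ Monotone U ∧
        ∀ γ ∈ Γ', ∀ j v, ∀ w ∈ U (j + 1), ρ γ • (v + w) - ρ γ • v - w ∈ U j := by
  obtain ⟨c, h⟩ := exists_LP S
  have hX : ULC X := ulc_of_charted (X := X) (E := E')
  obtain ⟨c₁, hc₁, T, hT⟩ := C.exists_QS hX h
  obtain ⟨N, hN, p, hp⟩ := S.exists_periodic
  have : LocallyPathConnectedSpace X := ChartedSpace.locallyPathConnectedSpace E' X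
  have : PathConnectedSpace X := pathConnectedSpace_iff_connectedSpace.mpr inferInstance
  have cov : IsCoveringMap (Leaf.pr T : Leaf S.g p → X) := pr_isCoveringMap h hc₁ T p
  have hsc : SimplyConnectedSpace (Leaf S.g p) := by
    obtain ⟨ψ, hψ, -⟩ := cov.isLocalHomeomorph (Leaf.base S.g p)
    let Φ := ψ.trans (chartAt E' (ψ (Leaf.base S.g p)))
    have hΦ : Leaf.base S.g p ∈ Φ.source := by
      rw [OpenPartialHomeomorph.trans_source]
      exact ⟨hψ, mem_chart_source E' _⟩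
    obtain ⟨e⟩ := leaf_homeo h p N hN hp Φ hΦ
    have : ContractibleSpace (Leaf S.g p) := e.symm.contractibleSpace
    infer_instance
  have hb : (Leaf.base S.g p).pr T = p := by
    obtain ⟨ε, hε, ht⟩ := T.tiny
    have h1 : SR S.g ε p p := fun k => by rw [dist_self]; exact hε.le
    have h2 : SR S.g.symm ε p p := fun k => by rw [dist_self]; exact hε.le
    exact Leaf.pr_eq T (ht p p p p h1 h2 h1 h2)
  have hdb : C.dev T (Leaf.base S.g p) = 1 := by
    unfold LC.dev
    rw [hb]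
    show C.cu p p * C.cs p p = 1
    rw [C.cu_self, C.cs_self, mul_one]
  have hloc := fun z => C.dev_loc h hc₁ T hT (p := p) z
  have hsep : ∀ z z' : Leaf S.g p, z.pr T = z'.pr T → C.dev T z = C.dev T z' → z = z' := by
    intro z z' h1 h2
    obtain ⟨t1, t2, t3, t4, t5⟩ := (hT _ _ _ _).mp (z.pr_spec T)
    obtain ⟨r1, r2, r3, r4, r5⟩ := (hT _ _ _ _).mp (z'.pr_spec T)
    have e1 := dev_pos C T hT z
    have e2 := dev_pos C T hT z'
    have hu : z.u = z'.u := by
      apply C.cu_cancel t2 r2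
      rw [← e1, ← e2, h1, h2]
    have q1 := T.flipU _ _ _ _ (z.pr_spec T)
    have q2 := T.flipU _ _ _ _ (z'.pr_spec T)
    rw [← h1, ← hu] at q2
    exact Leaf.ext hu (T.unique _ _ _ _ _ q1 q2)
  obtain ⟨ρ, hρ, hρe⟩ := exists_hom' cov (C.dev T) C.π hloc hsep (x := p) ⟨Leaf.base S.g p, hb⟩
  have hρe' : ∀ α, ∃ e : Leaf S.g p, e.pr T = p ∧ ρ α = C.dev T e := by
    intro α
    obtain ⟨e, he1, he2⟩ := hρe α
    refine ⟨e, he1, ?_⟩
    rw [he2]
    show (C.dev T (Leaf.base S.g p))⁻¹ * _ = _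
    rw [hdb, inv_one, one_mul]
  -- the element `b`
  have hbp : C.Bn N p • C.p p = C.p p := by
    have := C.Bn_p N p
    rwa [hp] at this
  have hpow : ∀ n, C.Bn N p ^ n • C.p p = C.p p := by
    intro n
    rw [Bn_pow C hp]
    have := C.Bn_p (N * n) p
    rwa [fix_mul hp] at this
  have huniq : ∀ n ≥ 1, ∀ y' : V, C.Bn N p ^ n • y' = y' → y' = C.p p := by
    intro n hn y' hy'
    by_contra hne
    obtain ⟨n₀, hn₀⟩ := C.expand {(C.p p, y')} isCompact_singleton (by
      rw [disjoint_singleton_left]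
      exact fun h => hne (Eq.symm h)) {y'} isCompact_singleton
    have hge : n₀ ≤ N * (n * n₀) := by
      have h1 : 1 ≤ N * n := Nat.mul_pos hN hn
      calc n₀ = 1 * n₀ := (one_mul _).symm
        _ ≤ N * n * n₀ := Nat.mul_le_mul_right _ h1
        _ = N * (n * n₀) := Nat.mul_assoc _ _ _
    refine hn₀ _ hge p y' rfl ?_
    rw [← Bn_pow C hp, pow_mul]
    have key : ∀ k : ℕ, (C.Bn N p ^ n) ^ k • y' = y' := by
      intro k
      induction k with
      | zero => simp
      | succ k ih => rw [pow_succ, mul_smul, hy', ih]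
    exact key n₀
  -- the traces
  classical
  let Φ : ℕ → Set ℝ := fun n => if n = 0 then ∅ else
    (fun q => LinearMap.trace ℝ V (A.L (C.Bn (N * n) q))) '' {q | S.g^[N * n] q = q}
  have hΦ : ∀ n, (Φ n).Finite := by
    intro n
    by_cases hn : n = 0
    · simp [Φ, hn]
    · simp only [Φ, hn, if_false]
      exact (finite_fix h (Nat.mul_pos hN (Nat.pos_of_ne_zero hn))).image _
  have htr : ∀ n ≥ 1, ∀ α, (∃ v : V, (ρ α * C.Bn N p ^ n) • v = v) →
      LinearMap.trace ℝ V (A.L (ρ α * C.Bn N p ^ n)) ∈ Φ n := by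
    rintro n hn α ⟨v, hv⟩
    obtain ⟨e, he1, he2⟩ := hρe' α
    have hdk : ∀ z : Leaf S.g p, ∃ z' : Leaf S.g p, z'.pr T = z.pr T ∧
        C.dev T z' = C.dev T e * C.dev T z := by
      intro z
      have : PathConnectedSpace (Leaf S.g p) := inferInstance
      obtain ⟨z', h1, h2⟩ := deck cov (C.dev T) C.π hloc (Leaf.base S.g p) e (by rw [he1, hb]) z
      refine ⟨z', h1, ?_⟩
      rw [h2, hdb, inv_one, mul_one]
    rw [he2, Bn_pow C hp] at hv ⊢
    obtain ⟨q, hq, k, hk⟩ := star C h T hT (Nat.mul_pos hN hn) (fix_mul hp n)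
      (posSet_eq S C hu hN hp) e hdk v hv
    have hn0 : n ≠ 0 := by omega
    simp only [Φ, hn0, if_false]
    refine ⟨q, hq, ?_⟩
    show LinearMap.trace ℝ V (A.L (C.Bn (N * n) q)) = _
    rw [hk, map_mul A.L, LinearMap.trace_mul_comm, ← map_mul A.L, inv_mul_cancel_left]
  obtain ⟨Γ', hfin, hnil, U, m, hU0, hUm, hUmono, hU⟩ := alg_main A d hpoly ρ (fun α hα => by
      obtain ⟨e, he1, he2⟩ := hρe' α
      have h1 := hα (C.p p)
      rw [he2] at h1
      have h2 := base_of_pos C T hT he1 h1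
      apply hρ
      rw [he2, h2, hdb, map_one]) (C.Bn N p)
    (fun n hn => ⟨C.p p, hpow n, huniq n hn⟩) Φ hΦ htr
  -- change of the base point
  let ee := FundamentalGroup.fundamentalGroupMulEquivOfPathConnected (X := X) (x₀ := x) (x₁ := p)
  have hfin' : (Γ'.comap ee.toMonoidHom).FiniteIndex :=
    ⟨by rw [Subgroup.index_comap_of_surjective _ ee.surjective]; exact hfin.index_ne_zero⟩
  refine ⟨ρ.comp ee.toMonoidHom, hρ.comp ee.injective, Γ'.comap ee.toMonoidHom, hfin', ?_, U, m,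
    hU0, hUm, hUmono, fun γ hγ j v w hw => hU (ee γ) hγ j v w hw⟩
  let φ : Γ'.comap ee.toMonoidHom →* Γ' :=
    (ee.toMonoidHom.comp (Γ'.comap ee.toMonoidHom).subtype).codRestrict Γ' fun γ => γ.2
  have hφ : Function.Injective φ := by
    intro a b hab
    apply Subtype.ext
    apply ee.injective
    exact congrArg Subtype.val hab
  exact Subgroup.isNilpotent_of_ker_le_center φ (by
    rw [(MonoidHom.ker_eq_bot_iff φ).mpr hφ]
    exact bot_le)

end abs

section manifold

universe u v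

variable {E : Type*} [NormedAddCommGroup E] [NormedSpace ℝ E] [FiniteDimensional ℝ E]
  {M : Type*} [TopologicalSpace M] [T2Space M] [CompactSpace M] [ConnectedSpace M]
  [ChartedSpace E M] [IsManifold 𝓘(ℝ, E) ∞ M] {V : Type v} {G : Type u}
  [NormedAddCommGroup V] [NormedSpace ℝ V] [FiniteDimensional ℝ V]
  [Group G] [TopologicalSpace G] [IsTopologicalGroup G] [MulAction G V] [ContinuousSMul G V]

/-- The main theorem. -/
theorem man_ta (f : Diffeomorph 𝓘(ℝ, E) 𝓘(ℝ, E) M M 1)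
    (Es Eu : ∀ x : M, Submodule ℝ (TangentSpace 𝓘(ℝ, E) x)) (hA : IsAnosov f Es Eu)
    (hu : ∀ x : M, finrank ℝ (Eu x) = finrank ℝ V)
    (D : TransStr f.toHomeomorph G V) (hexp : Expanding D) (hinj : InjUnstable D)
    (A : TriAct G V) (d : ℕ)
    (hpoly : ∀ (g : G) (ℓ : Dual ℝ V), (fun v : V => ℓ (g • v)) ∈ polyFun V d) (x : M) :
    ∃ ρ : FundamentalGroup M x →* G, Function.Injective ρ ∧
      ∃ Γ' : Subgroup (FundamentalGroup M x), Γ'.FiniteIndex ∧ Group.IsNilpotent Γ' ∧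
      ∃ (U : ℕ → Submodule ℝ V) (m : ℕ), U 0 = ⊥ ∧ U m = ⊤ ∧ Monotone U ∧
        ∀ γ ∈ Γ', ∀ j v, ∀ w ∈ U (j + 1), ρ γ • (v + w) - ρ γ • v - w ∈ U j := by
  obtain ⟨m, ee, hee, hemb, hinj'⟩ := exists_embedding_euclidean_of_compact (I := 𝓘(ℝ, E)) (M := M)
  let _ : MetricSpace M := hemb.isEmbedding.comapMetricSpace ee
  have hiso : ∀ x y : M, dist x y = ‖ee x - ee y‖ := fun x y => dist_eq_norm (ee x) (ee y)
  have he1 : ContMDiff 𝓘(ℝ, E) (𝓡 m) 1 ee := hee.of_le (by simp)
  obtain ⟨n, S, hn1, hg, hSe, hVs, hVu⟩ := exists_sys_ge hiso he1 hinj' f Es Eu hA 1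
  have hgi : ∀ x, S.g x = (f.toHomeomorph)^[n] x := fun x => by
    rw [hg]; rfl
  have hfin : ∀ (x : M) (W : Submodule ℝ E),
      finrank ℝ (W.map (dm E ee x).toLinearMap) = finrank ℝ W := fun x W =>
    (LinearEquiv.finrank_eq
      (Submodule.equivMapOfInjective (dm E ee x).toLinearMap (hinj' x) W)).symm
  have hfu : ∀ x, finrank ℝ (S.Vu x) = finrank ℝ V := fun x => by
    rw [hVu]
    exact (hfin x (Eu x)).trans (hu x)
  have : ProperSpace E := FiniteDimensional.proper_real E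
  obtain ⟨C, hCD⟩ := exists_TS D hexp hinj hn1 hgi
  exact abs_ta (E' := E) S C hfu A d hpoly x

end manifold

end Pool.Agent.N235.TA
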